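import Pool.Agent.Lib.MP_7f333f_an.Neg.Seq

set_option autoImplicit false

/-!
The Schreier family satisfies the assumptions of the negative theorem.
-/

namespace Pool.Agent.Comb7f333f

/-- The Schreier family (shifted to the integers starting from zero). -/
def schreier : Set (Finset ℕ) := {F | ∀ k ∈ F, F.card ≤ k + 1}

theorem schreier_regular : IsRegular schreier where
  hereditary F hF F' hF' k hk := (Finset.card_le_card hF').trans (hF k (hF' hk))
  spreading n l k hl hk hlk hmem x hx := by
    obtain ⟨i, _, rfl⟩ := Finset.mem_image.mp hx
    have h1 := hmem (l i) (Finset.mem_image_of_mem _ (Finset.mem_univ i))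
    rw [Finset.card_image_of_injective _ hl.injective] at h1
    rw [Finset.card_image_of_injective _ hk.injective]
    have h2 := hlk i
    omega
  compact := by
    classical
    have h1 : {c : ℕ → Bool | ∃ F ∈ schreier, ∀ n, c n = decide (n ∈ F)} =
        ⋂ (k : ℕ) (T : Finset ℕ), {c : ℕ → Bool | c k = true → (∀ n ∈ T, c n = true) →
          T.card ≤ k + 1} := by
      ext c
      simp only [Set.mem_ofPred_eq, Set.mem_iInter]
      constructor
      · rintro ⟨F, hF, hc⟩ k T hk hT
        have hkF : k ∈ F := by
          have := hc k
          rw [hk] at this
          exact of_decide_eq_true this.symm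
        refine (Finset.card_le_card fun n hn => ?_).trans (hF k hkF)
        have := hc n
        rw [hT n hn] at this
        exact of_decide_eq_true this.symm
      · intro hc
        by_cases hall : ∀ k, c k = false
        · exact ⟨∅, fun k hk => absurd hk (Finset.notMem_empty k), fun n => by simp [hall n]⟩
        · push Not at hall
          obtain ⟨k, hk⟩ := hall
          have hk' : c k = true := by simpa using hk
          have hfin : {n | c n = true}.Finite := by
            by_contra hinf
            obtain ⟨T, hT1, hT2⟩ := Set.Infinite.exists_subset_card_eq hinf (k + 2)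
            have := hc k T hk' fun n hn => hT1 hn
            omega
          refine ⟨hfin.toFinset, fun j hj => hc j _ ?_ fun n hn => ?_, fun n => ?_⟩
          · simpa using hj
          · simpa using hn
          · by_cases hn : c n = true
            · simp [hn]
            · simp only [Bool.not_eq_true] at hn
              simp [hn]
    rw [h1]
    refine IsClosed.isCompact ?_
    refine isClosed_iInter fun k => isClosed_iInter fun T => ?_
    by_cases hT : T.card ≤ k + 1
    · have : {c : ℕ → Bool | c k = true → (∀ n ∈ T, c n = true) → T.card ≤ k + 1} = Set.univ := by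
        ext c; simp [hT]
      rw [this]
      exact isClosed_univ
    · have : {c : ℕ → Bool | c k = true → (∀ n ∈ T, c n = true) → T.card ≤ k + 1} =
          (⋂ n ∈ insert k T, {c : ℕ → Bool | c n = true})ᶜ := by
        ext c
        simp only [Set.mem_ofPred_eq, Set.mem_compl_iff, Set.mem_iInter, Finset.mem_insert]
        constructor
        · intro h' h''
          exact hT (h' (h'' k (Or.inl rfl)) fun n hn => h'' n (Or.inr hn))
        · intro h' hk hTc
          exact absurd (fun n hn => by
            rcases hn with rfl | hn
            · exact hk
            · exact hTc n hn) h'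
      rw [this, isClosed_compl_iff]
      refine isOpen_biInter_finset fun n _ => ?_
      have : {c : ℕ → Bool | c n = true} = (fun c : ℕ → Bool => c n) ⁻¹' {true} := rfl
      rw [this]
      exact (isOpen_discrete _).preimage (continuous_apply n)
  singleton n k hk := by simp

theorem schreier_unbounded (r : ℕ) : ∃ F ∈ schreier, r ≤ F.card := by
  refine ⟨Finset.Ico r (2 * r), fun k hk => ?_, ?_⟩
  · rw [Nat.card_Ico]
    have := (Finset.mem_Ico.mp hk).1
    omega
  · rw [Nat.card_Ico]; omega

theorem schreier_farUnions : FarUnions schreier := by
  classical
  intro m r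
  refine ⟨r * (m + 1), fun A hA k hk => ?_⟩
  have h1 : ∀ i, (A i).card ≤ m + 1 := fun i =>
    (Finset.card_le_card (Finset.subset_insert m (A i))).trans
      ((hA i).1 m (Finset.mem_insert_self _ _))
  have h2 : (Finset.univ.biUnion A).card ≤ r * (m + 1) := by
    refine Finset.card_biUnion_le.trans ?_
    refine (Finset.sum_le_sum fun i _ => h1 i).trans ?_
    simp
  obtain ⟨i, _, hi⟩ := Finset.mem_biUnion.mp hk
  have h3 := (hA i).2 k hi
  omega

end Pool.Agent.Comb7f333f
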