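import Pool.Agent.Lib.MP_7f333f_an.Neg.Chain

set_option autoImplicit false

/-!
Coordinate functionals on a combinatorial space; subsequences of vectors with small section norms;
there are no copies of `ℓ₁`.
-/

namespace Pool.Agent.Comb7f333f

open Filter Topology

section Coord

variable {𝓕 : Set (Finset ℕ)} {X : Type*} [NormedAddCommGroup X] [NormedSpace ℝ X] {e : ℕ → X}

/-- The coordinate functionals. -/
noncomputable def ef (e : ℕ → X) (k : ℕ) : X →L[ℝ] ℝ :=
  (Finsupp.lapply k : (ℕ →₀ ℝ) →ₗ[ℝ] ℝ).extendOfNorm (Finsupp.linearCombination ℝ e)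

variable (h : IsRegular 𝓕) (hX : IsCombSpace 𝓕 e)

include h hX

theorem ef_emb (k : ℕ) (a : ℕ →₀ ℝ) : ef e k (Finsupp.linearCombination ℝ e a) = a k :=
  LinearMap.extendOfNorm_eq hX.dense ⟨1, fun a => by
    rw [one_mul, hX.norm_eq, Real.norm_eq_abs]; exact abs_le_combNorm h a k⟩ a

theorem sum_ef_le {F : Finset ℕ} (hF : F ∈ 𝓕) (x : X) : ∑ k ∈ F, |ef e k x| ≤ ‖x‖ := by
  have hclosed : IsClosed {x : X | ∑ k ∈ F, |ef e k x| ≤ ‖x‖} :=
    isClosed_le (by fun_prop) (by fun_prop)
  refine hX.dense.induction_on x hclosed fun a => ?_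
  rw [hX.norm_eq]
  simp only [ef_emb h hX]
  exact le_combNorm a hF

theorem abs_ef_le (k : ℕ) (x : X) : |ef e k x| ≤ ‖x‖ := by
  have := sum_ef_le h hX (h.singleton k) x
  simpa using this

omit h in
theorem norm_basis_le (k : ℕ) : ‖e k‖ ≤ 1 := by
  classical
  have h1 : e k = Finsupp.linearCombination ℝ e (Finsupp.single k 1) := by simp
  rw [h1, hX.norm_eq]
  refine combNorm_le _ zero_le_one fun F _ => ?_
  have h2 : ∀ i ∈ F, |(Finsupp.single k (1 : ℝ)) i| = if k = i then 1 else 0 := by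
    intro i _
    rw [Finsupp.single_apply]
    split_ifs <;> simp
  rw [Finset.sum_congr rfl h2, Finset.sum_ite_eq]
  split_ifs <;> norm_num

/-- Vectors with small initial coordinates are close to finitely supported vectors which are
supported far away. -/
theorem exists_tail_approx (n : ℕ) (η : ℝ) (hη : 0 < η) (x : X)
    (hx : ∀ k, k ≤ n → |ef e k x| ≤ η / (4 * (n + 1))) :
    ∃ a : ℕ →₀ ℝ, (∀ k ∈ a.support, n < k) ∧ ‖x - Finsupp.linearCombination ℝ e a‖ ≤ η := by
  classical
  have hn : (0 : ℝ) < n + 1 := by positivity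
  obtain ⟨a0, ha0⟩ := hX.dense.exists_dist_lt x (show 0 < η / (4 * (n + 1 : ℝ)) by positivity)
  rw [dist_eq_norm] at ha0
  refine ⟨a0.filter (fun k => n < k), ?_, ?_⟩
  · intro k hk
    rw [Finsupp.support_filter, Finset.mem_filter] at hk
    exact hk.2
  · have h1 : a0 = a0.filter (fun k => n < k) +
        ∑ k ∈ Finset.range (n + 1), Finsupp.single k (a0 k) := by
      ext i
      rw [Finsupp.add_apply, Finsupp.finsetSum_apply, Finsupp.filter_apply]
      have h2 : ∀ k ∈ Finset.range (n + 1), (Finsupp.single k (a0 k)) i =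
          if k = i then a0 k else 0 := fun k _ => Finsupp.single_apply
      rw [Finset.sum_congr rfl h2, Finset.sum_ite_eq']
      by_cases hi : n < i
      · rw [if_pos hi, if_neg (by rw [Finset.mem_range]; omega), add_zero]
      · rw [if_neg hi, if_pos (by rw [Finset.mem_range]; omega), zero_add]
    have h2 : ∀ k ∈ Finset.range (n + 1), |a0 k| ≤ 2 * (η / (4 * (n + 1))) := by
      intro k hk
      rw [Finset.mem_range] at hk
      have h3 := hx k (by omega)
      have h4 := abs_ef_le h hX k (x - Finsupp.linearCombination ℝ e a0)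
      rw [map_sub, ef_emb h hX] at h4
      have h5 : |a0 k| ≤ |ef e k x| + |ef e k x - a0 k| := by
        have := abs_sub_abs_le_abs_sub (a0 k) (ef e k x)
        rw [abs_sub_comm] at this
        linarith
      linarith
    have h3 : ‖Finsupp.linearCombination ℝ e
        (∑ k ∈ Finset.range (n + 1), Finsupp.single k (a0 k))‖ ≤ η / 2 := by
      rw [map_sum]
      refine (norm_sum_le _ _).trans ?_
      have h4 : ∀ k ∈ Finset.range (n + 1), ‖Finsupp.linearCombination ℝ e
          (Finsupp.single k (a0 k))‖ ≤ 2 * (η / (4 * (n + 1))) := by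
        intro k hk
        rw [Finsupp.linearCombination_single, norm_smul, Real.norm_eq_abs]
        have h5 := norm_basis_le hX k
        have h6 := h2 k hk
        have h7 : |a0 k| * ‖e k‖ ≤ |a0 k| * 1 := mul_le_mul_of_nonneg_left h5 (abs_nonneg _)
        linarith
      refine (Finset.sum_le_sum h4).trans ?_
      rw [Finset.sum_const, Finset.card_range, nsmul_eq_mul]
      push_cast
      field_simp
      norm_num
    have h4 : x - Finsupp.linearCombination ℝ e (a0.filter (fun k => n < k)) =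
        (x - Finsupp.linearCombination ℝ e a0) + Finsupp.linearCombination ℝ e
        (∑ k ∈ Finset.range (n + 1), Finsupp.single k (a0 k)) := by
      conv_rhs => rw [h1]
      rw [map_add]
      have h5 : (a0.filter (fun k => n < k) +
        ∑ k ∈ Finset.range (n + 1), Finsupp.single k (a0 k)) = a0 := h1.symm
      rw [h5]
      abel
    rw [h4]
    refine (norm_add_le _ _).trans ?_
    have h5 : η / (4 * (n + 1 : ℝ)) ≤ η / 4 := by
      apply div_le_div_of_nonneg_left hη.le (by norm_num)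
      have : (0 : ℝ) ≤ n := Nat.cast_nonneg n
      linarith
    linarith

/-- The vector is close to a vector supported far away with a small section norm. -/
def Good (𝓕 : Set (Finset ℕ)) (e : ℕ → X) (M : ℕ) (δ : ℝ) (x : X) : Prop :=
  ∃ b : ℕ →₀ ℝ, (∀ k ∈ b.support, M < k) ∧ ‖x - Finsupp.linearCombination ℝ e b‖ ≤ δ ∧
    combNorm (sec 𝓕 {M}) b ≤ δ

theorem good_of (M : ℕ) (δ : ℝ) (hδ : 0 < δ) (x : X)
    (hx : ∀ k, k ≤ M → |ef e k x| ≤ (δ / 2) / (4 * (M + 1)))
    (hG : ∀ G ∈ sec 𝓕 {M}, ∑ k ∈ G, |ef e k x| ≤ δ / 2) : Good 𝓕 e M δ x := by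
  obtain ⟨b, hb1, hb2⟩ := exists_tail_approx h hX M (δ / 2) (by positivity) x hx
  refine ⟨b, hb1, hb2.trans (by linarith), combNorm_le _ hδ.le fun G hG' => ?_⟩
  have hG𝓕 : G ∈ 𝓕 := h.hereditary _ hG'.2 _ Finset.subset_union_right
  have h1 := sum_ef_le h hX hG𝓕 (x - Finsupp.linearCombination ℝ e b)
  have h2 := hG G hG'
  have h3 : ∑ k ∈ G, |b k| ≤ ∑ k ∈ G, |ef e k x| +
      ∑ k ∈ G, |ef e k (x - Finsupp.linearCombination ℝ e b)| := by
    rw [← Finset.sum_add_distrib]
    refine Finset.sum_le_sum fun k _ => ?_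
    rw [map_sub, ef_emb h hX]
    have := abs_sub_abs_le_abs_sub (b k) (ef e k x)
    rw [abs_sub_comm (b k)] at this
    linarith
  linarith

/-- If the coordinates tend to zero, it is enough to look at the section sums. -/
theorem good_of_tendsto (y : ℕ → X) (hy : ∀ k, Tendsto (fun j => ef e k (y j)) atTop (𝓝 0))
    (M : ℕ) (δ : ℝ) (hδ : 0 < δ) : ∀ᶠ j in atTop,
      (∀ G ∈ sec 𝓕 {M}, ∑ k ∈ G, |ef e k (y j)| ≤ δ / 2) → Good 𝓕 e M δ (y j) := by
  have hη : 0 < (δ / 2) / (4 * (M + 1 : ℝ)) := by positivity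
  have h1 : ∀ᶠ j in atTop, ∀ k ∈ Finset.range (M + 1),
      |ef e k (y j)| ≤ (δ / 2) / (4 * (M + 1)) := by
    rw [Filter.eventually_all_finset]
    intro k _
    have h2 := (hy k).abs
    rw [abs_zero] at h2
    exact (h2.eventually_lt_const hη).mono fun j hj => hj.le
  filter_upwards [h1] with j hj hG
  exact good_of h hX M δ hδ (y j) (fun k hk => hj k (Finset.mem_range.mpr (by omega))) hG

/-- A subsequence of vectors with small section norms has small sums. -/
theorem exists_subseq_of_good (y : ℕ → X) (B : ℝ) (hB : ∀ j, ‖y j‖ ≤ B) (δ : ℕ → ℝ)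
    (hδ : ∀ l, 0 < δ l) (hδ1 : ∀ l, δ l ≤ 1)
    (hy : ∀ M j0 l, ∃ j, j0 < j ∧ Good 𝓕 e M (δ l) (y j)) :
    ∃ φ : ℕ → ℕ, StrictMono φ ∧
      ∀ s : Finset ℕ, ‖∑ l ∈ s, y (φ l)‖ ≤ B + 1 + 2 * ∑ l ∈ s, δ l := by
  classical
  choose J hJ b hb1 hb2 hb3 using hy
  let st : ℕ → ℕ × ℕ := fun l => Nat.rec (0, 0)
    (fun l p => (max (p.1 + 1) ((b p.1 p.2 l).support.sup id), J p.1 p.2 l)) l
  have hst : ∀ l, st (l + 1) = (max ((st l).1 + 1) ((b (st l).1 (st l).2 l).support.sup id),
    J (st l).1 (st l).2 l) := fun l => rfl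
  clear_value st
  set M : ℕ → ℕ := fun l => (st l).1 with hM
  set φ : ℕ → ℕ := fun l => J (st l).1 (st l).2 l with hφ
  set u : ℕ → (ℕ →₀ ℝ) := fun l => b (st l).1 (st l).2 l with hu
  have hMs : ∀ l, M (l + 1) = max (M l + 1) ((u l).support.sup id) := fun l => by
    rw [hM]; simp only [hst]; rfl
  have hMmono : StrictMono M := strictMono_nat_of_lt_succ fun l => by
    rw [hMs]; exact lt_of_lt_of_le (Nat.lt_succ_self _) (le_max_left _ _)
  have hφs : ∀ l, (st (l + 1)).2 = φ l := fun l => by rw [hst]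
  have hφmono : StrictMono φ := strictMono_nat_of_lt_succ fun l => by
    have h1 := hJ (st (l + 1)).1 (st (l + 1)).2 (l + 1)
    rw [hφs] at h1
    have h2 : φ (l + 1) = J (st (l + 1)).1 (φ l) (l + 1) := by
      show J (st (l + 1)).1 (st (l + 1)).2 (l + 1) = _
      rw [hφs]
    rw [h2]
    exact h1
  refine ⟨φ, hφmono, fun s => ?_⟩
  have hB0 : 0 ≤ B := (norm_nonneg _).trans (hB 0)
  have hu1 : ∀ j, ∀ k ∈ (u j).support, M j < k ∧ k ≤ M (j + 1) := by
    intro j k hk
    refine ⟨hb1 _ _ _ k hk, ?_⟩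
    rw [hMs]
    exact (Finset.le_sup (f := id) hk).trans (le_max_right _ _)
  have hu4 : ∀ j, ‖y (φ j) - Finsupp.linearCombination ℝ e (u j)‖ ≤ δ j := fun j => hb2 _ _ _
  have hu2 : ∀ j, combNorm 𝓕 (u j) ≤ B + 1 := by
    intro j
    rw [← hX.norm_eq]
    have h1 := hu4 j
    have h2 := norm_sub_norm_le (Finsupp.linearCombination ℝ e (u j)) (y (φ j))
    rw [norm_sub_rev] at h2
    have h3 := hB (φ j)
    have h4 := hδ1 j
    linarith
  have hu3 : ∀ j, combNorm (sec 𝓕 (insert (M j) ∅)) (u j) ≤ δ j := fun j => by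
    rw [insert_empty_eq]
    exact hb3 _ _ _
  have h1 := combNorm_blocks_le h ∅ M hMmono (fun j i hi => absurd hi (Finset.notMem_empty i))
    u δ (fun j => (hδ j).le) hu1 (B + 1) (by linarith) hu2 hu3 s
  rw [sec_empty, ← hX.norm_eq, map_sum] at h1
  have h2 : ∑ l ∈ s, y (φ l) = ∑ l ∈ s, (y (φ l) - Finsupp.linearCombination ℝ e (u l)) +
      ∑ l ∈ s, Finsupp.linearCombination ℝ e (u l) := by
    rw [← Finset.sum_add_distrib]
    exact Finset.sum_congr rfl fun l _ => by abel
  rw [h2]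
  refine (norm_add_le _ _).trans ?_
  have h3 := (norm_sum_le s fun l => y (φ l) - Finsupp.linearCombination ℝ e (u l)).trans
    (Finset.sum_le_sum fun l _ => hu4 l)
  linarith

omit h hX in
/-- Linear functionals which are large on all terms are large on convex combinations. -/
theorem le_of_isConv {V : Type*} [AddCommGroup V] [Module ℝ V] (ψ : V →ₗ[ℝ] ℝ) (b : ℕ → V)
    (ε : ℝ) (hb : ∀ l, ε ≤ ψ (b l)) {n : ℕ} {c : ℕ →₀ ℝ} (hc : IsConv n c) :
    ε ≤ ψ (Finsupp.linearCombination ℝ b c) := by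
  rw [Finsupp.linearCombination_apply, Finsupp.sum, map_sum]
  have h1 : ∑ l ∈ c.support, c l * ε ≤ ∑ l ∈ c.support, ψ (c l • b l) := by
    refine Finset.sum_le_sum fun l _ => ?_
    rw [map_smul, smul_eq_mul]
    exact mul_le_mul_of_nonneg_left (hb l) (hc.nonneg l)
  rwa [← Finset.sum_mul, ← mass_eq_sum, hc.mass_eq, one_mul] at h1

/-- The basis tends weakly to zero. -/
theorem tendsto_functional (φ : X →L[ℝ] ℝ) : Tendsto (fun i => φ (e i)) atTop (𝓝 0) := by
  classical
  by_contra hcon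
  rw [Metric.tendsto_atTop] at hcon
  push Not at hcon
  obtain ⟨ε, hε, hf⟩ := hcon
  choose f hf1 hf2 using hf
  simp only [dist_zero_right, Real.norm_eq_abs] at hf2
  set b : ℕ → (ℕ →₀ ℝ) := fun l => Finsupp.single (f l) ((SignType.sign (φ (e (f l))) : ℝ))
    with hb
  have hsg : ∀ x : ℝ, |(SignType.sign x : ℝ)| ≤ 1 := by
    intro x
    rcases lt_trichotomy x 0 with hx | hx | hx
    · rw [sign_neg hx]; simp
    · rw [hx]; simp
    · rw [sign_pos hx]; simp
  have hbn : ∀ l, combNorm 𝓕 (b l) ≤ 1 := by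
    intro l
    rw [← hX.norm_eq, hb]
    simp only [Finsupp.linearCombination_single]
    rw [norm_smul, Real.norm_eq_abs]
    have h1 := norm_basis_le hX (f l)
    have h2 := hsg (φ (e (f l)))
    calc _ ≤ 1 * 1 := mul_le_mul h2 h1 (norm_nonneg _) zero_le_one
      _ = 1 := one_mul 1
  have hmin : ∀ n, ∃ l0, ∀ l ≥ l0, ∀ k ∈ (b l).support, n < k := by
    intro n
    refine ⟨n + 1, fun l hl k hk => ?_⟩
    have h1 := Finsupp.support_single_subset hk
    rw [Finset.mem_singleton] at h1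
    have h2 := hf1 l
    omega
  obtain ⟨c, hc, hcn⟩ := exists_small_conv h b 1 hbn hmin (ε / (‖φ‖ + 1)) (by positivity) 0
  set ψ : (ℕ →₀ ℝ) →ₗ[ℝ] ℝ := (φ : X →ₗ[ℝ] ℝ).comp (Finsupp.linearCombination ℝ e) with hψ
  have h1 : ∀ l, ε ≤ ψ (b l) := by
    intro l
    rw [hψ, hb]
    simp only [LinearMap.comp_apply, Finsupp.linearCombination_single, ContinuousLinearMap.coe_coe,
      map_smul, smul_eq_mul]
    rw [sign_mul_self]
    exact hf2 l
  have h2 := le_of_isConv ψ b ε h1 hc
  have h3 : ψ (Finsupp.linearCombination ℝ b c) ≤ ‖φ‖ * (ε / (‖φ‖ + 1)) := by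
    rw [hψ]
    simp only [LinearMap.comp_apply, ContinuousLinearMap.coe_coe]
    refine (le_abs_self _).trans ?_
    rw [← Real.norm_eq_abs]
    refine (φ.le_opNorm _).trans (mul_le_mul_of_nonneg_left ?_ (norm_nonneg _))
    rw [hX.norm_eq]
    exact hcn.le
  have h4 : ‖φ‖ * (ε / (‖φ‖ + 1)) < ε := by
    rw [mul_div_assoc', div_lt_iff₀ (by positivity)]
    nlinarith [norm_nonneg φ]
  linarith

/-- There are no copies of the basis of `ℓ₁`. -/
theorem noL1 (y : ℕ → X) (B : ℝ) (hB : ∀ j, ‖y j‖ ≤ B) (c : ℝ) (hc : 0 < c)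
    (hy : ∀ a : ℕ →₀ ℝ, c * l1 a ≤ ‖Finsupp.linearCombination ℝ y a‖) : False := by
  classical
  -- a subsequence with convergent coordinates
  have hcomp : IsCompact (Set.pi Set.univ fun _ : ℕ => Set.Icc (-B) B) :=
    isCompact_univ_pi fun _ => isCompact_Icc
  obtain ⟨a, _, φ, hφ, hlim⟩ := hcomp.tendsto_subseq (x := fun j => fun k => ef e k (y j))
    (fun j k _ => abs_le.mp ((abs_ef_le h hX k (y j)).trans (hB j)))
  rw [tendsto_pi_nhds] at hlim
  set z : ℕ → X := fun l => y (φ (2 * l + 1)) - y (φ (2 * l)) with hz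
  have hzk : ∀ k, Tendsto (fun l => ef e k (z l)) atTop (𝓝 0) := by
    intro k
    have h1 : Tendsto (fun l : ℕ => 2 * l + 1) atTop atTop :=
      tendsto_atTop_mono (fun l => by show l ≤ 2 * l + 1; omega) tendsto_id
    have h2 : Tendsto (fun l : ℕ => 2 * l) atTop atTop :=
      tendsto_atTop_mono (fun l => by show l ≤ 2 * l; omega) tendsto_id
    have h3 := ((hlim k).comp h1).sub ((hlim k).comp h2)
    rw [sub_self] at h3
    refine h3.congr fun l => ?_
    simp only [hz, Function.comp_apply, map_sub]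
  -- approximation
  have happ : ∀ n : ℕ, ∃ l, ∃ b : ℕ →₀ ℝ, (∀ k ∈ b.support, n < k) ∧
      ‖z l - Finsupp.linearCombination ℝ e b‖ ≤ c / 4 := by
    intro n
    have hη : 0 < (c / 4) / (4 * (n + 1 : ℝ)) := by positivity
    have h1 : ∀ᶠ j in atTop, ∀ k ∈ Finset.range (n + 1),
        |ef e k (z j)| ≤ (c / 4) / (4 * (n + 1)) := by
      rw [Filter.eventually_all_finset]
      intro k _
      have h2 := (hzk k).abs
      rw [abs_zero] at h2
      exact (h2.eventually_lt_const hη).mono fun j hj => hj.le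
    obtain ⟨l, hl⟩ := h1.exists
    obtain ⟨b, hb⟩ := exists_tail_approx h hX n (c / 4) (by positivity) (z l)
      (fun k hk => hl k (Finset.mem_range.mpr (by omega)))
    exact ⟨l, b, hb⟩
  choose l b hb1 hb2 using happ
  have hzn : ∀ l, ‖z l‖ ≤ 2 * B := by
    intro l
    rw [hz]
    refine (norm_sub_le _ _).trans ?_
    linarith [hB (φ (2 * l + 1)), hB (φ (2 * l))]
  have hbn : ∀ n, combNorm 𝓕 (b n) ≤ 2 * B + c / 4 := by
    intro n
    rw [← hX.norm_eq]
    have h2 := norm_sub_norm_le (Finsupp.linearCombination ℝ e (b n)) (z (l n))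
    rw [norm_sub_rev (Finsupp.linearCombination ℝ e (b n)) (z (l n))] at h2
    have h3 := hb2 n
    have h4 := hzn (l n)
    linarith
  obtain ⟨d, hd, hdn⟩ := exists_small_conv h b _ hbn
    (fun n => ⟨n, fun m hm k hk => lt_of_le_of_lt hm (hb1 m k hk)⟩) (c / 4) (by positivity) 0
  -- the lower bound
  set v : ℕ → (ℕ →₀ ℝ) := fun n => Finsupp.single (φ (2 * l n + 1)) 1 -
    Finsupp.single (φ (2 * l n)) 1 with hv
  have h1 : Finsupp.linearCombination ℝ (fun n => z (l n)) d =
      Finsupp.linearCombination ℝ y (Finsupp.linearCombination ℝ v d) := by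
    rw [← LinearMap.comp_apply]
    congr 1
    ext n
    simp [hv, hz]
  set ψ : (ℕ →₀ ℝ) →ₗ[ℝ] ℝ := Finsupp.linearCombination ℝ
    (fun k => if ∃ m, k = φ (2 * m + 1) then (1 : ℝ) else 0) with hψ
  have h2 : ∀ n, 1 ≤ ψ (v n) := by
    intro n
    have h3 : ∃ m, φ (2 * l n + 1) = φ (2 * m + 1) := ⟨_, rfl⟩
    have h4 : ¬ ∃ m, φ (2 * l n) = φ (2 * m + 1) := by
      rintro ⟨m, hm⟩
      have := hφ.injective hm
      omega
    rw [hψ, hv]
    simp only [map_sub, Finsupp.linearCombination_single, smul_eq_mul, one_mul]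
    rw [if_pos h3, if_neg h4, sub_zero]
  have h3 := le_of_isConv ψ v 1 h2 hd
  have h4 : ψ (Finsupp.linearCombination ℝ v d) ≤ l1 (Finsupp.linearCombination ℝ v d) := by
    generalize Finsupp.linearCombination ℝ v d = a
    rw [hψ, Finsupp.linearCombination_apply, Finsupp.sum, l1, Finsupp.sum]
    refine Finset.sum_le_sum fun k _ => ?_
    simp only [smul_eq_mul]
    split_ifs
    · rw [mul_one]; exact le_abs_self _
    · rw [mul_zero]; exact abs_nonneg _
  have h5 := hy (Finsupp.linearCombination ℝ v d)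
  rw [← h1] at h5
  have h6 : c ≤ ‖Finsupp.linearCombination ℝ (fun n => z (l n)) d‖ := by
    refine le_trans ?_ h5
    have : 1 ≤ l1 (Finsupp.linearCombination ℝ v d) := h3.trans h4
    nlinarith
  have h7 : Finsupp.linearCombination ℝ (fun n => z (l n)) d =
      Finsupp.linearCombination ℝ (fun n => z (l n) - Finsupp.linearCombination ℝ e (b n)) d +
      Finsupp.linearCombination ℝ e (Finsupp.linearCombination ℝ b d) := by
    have h8 : Finsupp.linearCombination ℝ e (Finsupp.linearCombination ℝ b d) =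
        Finsupp.linearCombination ℝ (fun n => Finsupp.linearCombination ℝ e (b n)) d := by
      rw [← LinearMap.comp_apply]
      congr 1
      ext n
      simp
    rw [h8, Finsupp.linearCombination_apply, Finsupp.linearCombination_apply,
      Finsupp.linearCombination_apply, Finsupp.sum, Finsupp.sum, Finsupp.sum,
      ← Finset.sum_add_distrib]
    exact Finset.sum_congr rfl fun n _ => by rw [← smul_add, sub_add_cancel]
  have h8 : ‖Finsupp.linearCombination ℝ
      (fun n => z (l n) - Finsupp.linearCombination ℝ e (b n)) d‖ ≤ c / 4 := by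
    rw [Finsupp.linearCombination_apply, Finsupp.sum]
    refine (norm_sum_le _ _).trans ?_
    have h9 : ∀ n ∈ d.support, ‖d n • (z (l n) - Finsupp.linearCombination ℝ e (b n))‖ ≤
        d n * (c / 4) := by
      intro n _
      rw [norm_smul, Real.norm_eq_abs, abs_of_nonneg (hd.nonneg n)]
      exact mul_le_mul_of_nonneg_left (hb2 n) (hd.nonneg n)
    refine (Finset.sum_le_sum h9).trans ?_
    rw [← Finset.sum_mul, ← mass_eq_sum, hd.mass_eq, one_mul]
  rw [← hX.norm_eq] at hdn
  rw [h7] at h6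
  have h9 := norm_add_le (Finsupp.linearCombination ℝ
    (fun n => z (l n) - Finsupp.linearCombination ℝ e (b n)) d)
    (Finsupp.linearCombination ℝ e (Finsupp.linearCombination ℝ b d))
  linarith

end Coord

end Pool.Agent.Comb7f333f
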