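import Pool.Agent.Lib.MP_7f333f_an.Blocks

set_option autoImplicit false

/-!
Chains of sections of a regular family, sums of successive blocks, and convex combinations of
blocks with small norms.
-/

namespace Pool.Agent.Comb7f333f

open Filter Topology

section Regular

variable {𝓕 : Set (Finset ℕ)} (h : IsRegular 𝓕)

include h

/-- A property which forces membership in the family has a maximal set. -/
theorem exists_maximal_of (P : Finset ℕ → Prop) (h0 : P ∅) (hP : ∀ A, P A → A ∈ 𝓕) :
    ∃ A : Finset ℕ, P A ∧ ∀ m, (∀ i ∈ A, i < m) → ¬ P (insert m A) := by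
  classical
  by_contra hcon
  push Not at hcon
  choose f hf1 hf2 using hcon
  -- the chain
  let A : ℕ → {A : Finset ℕ // P A} := fun n => Nat.rec ⟨∅, h0⟩
    (fun _ B => ⟨insert (f B.1 B.2) B.1, hf2 B.1 B.2⟩) n
  have hA : ∀ n, (A (n + 1)).1 = insert (f (A n).1 (A n).2) (A n).1 := fun n => rfl
  have hsub : ∀ n, (A n).1 ⊆ (A (n + 1)).1 := fun n => by
    rw [hA]; exact Finset.subset_insert _ _
  have hmono : Monotone fun n => (A n).1 := monotone_nat_of_le_succ hsub
  have hcard : ∀ n, (A n).1.card = n := by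
    intro n
    induction n with
    | zero => rfl
    | succ n ih =>
      rw [hA, Finset.card_insert_of_notMem, ih]
      intro hmem
      exact lt_irrefl _ (hf1 (A n).1 (A n).2 _ hmem)
  set χ : ℕ → Bool := fun n => decide (∃ j, n ∈ (A j).1) with hχ
  have htend : Tendsto (fun j => (fun n => decide (n ∈ (A j).1) : ℕ → Bool)) atTop (𝓝 χ) := by
    rw [tendsto_pi_nhds]
    intro n
    refine tendsto_nhds_of_eventually_eq ?_
    by_cases hn : ∃ j, n ∈ (A j).1
    · obtain ⟨j, hj⟩ := hn
      filter_upwards [eventually_ge_atTop j] with i hi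
      have h1 : n ∈ (A i).1 := hmono hi hj
      have h2 : ∃ j, n ∈ (A j).1 := ⟨j, hj⟩
      simp [hχ, h1, h2]
    · filter_upwards with i
      have h1 : n ∉ (A i).1 := fun h' => hn ⟨i, h'⟩
      simp only [hχ, h1, hn]
  have hmem := h.compact.isClosed.mem_of_tendsto htend (Filter.Eventually.of_forall fun j =>
    ⟨(A j).1, hP _ (A j).2, fun n => rfl⟩)
  obtain ⟨F, _, hF⟩ := hmem
  have hAF : ∀ j, (A j).1 ⊆ F := by
    intro j n hn
    have h1 := hF n
    have h2 : χ n = true := by
      simp only [hχ, decide_eq_true_eq]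
      exact ⟨j, hn⟩
    rw [h2] at h1
    exact of_decide_eq_true h1.symm
  have h1 := Finset.card_le_card (hAF (F.card + 1))
  have h2 := hcard (F.card + 1)
  omega

/-- The section norm of a sum of successive blocks: one block may be large, the others are
measured by smaller section norms. -/
theorem combNorm_blocks_le (A : Finset ℕ) (M : ℕ → ℕ) (hM : StrictMono M)
    (hAM : ∀ j, ∀ i ∈ A, i < M j) (u : ℕ → (ℕ →₀ ℝ)) (δ : ℕ → ℝ) (hδ : ∀ j, 0 ≤ δ j)
    (hu1 : ∀ j, ∀ k ∈ (u j).support, M j < k ∧ k ≤ M (j + 1)) (B : ℝ) (hB : 0 ≤ B)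
    (hu2 : ∀ j, combNorm 𝓕 (u j) ≤ B)
    (hu3 : ∀ j, combNorm (sec 𝓕 (insert (M j) A)) (u j) ≤ δ j) (s : Finset ℕ) :
    combNorm (sec 𝓕 A) (∑ j ∈ s, u j) ≤ B + ∑ j ∈ s, δ j := by
  classical
  have hδs : 0 ≤ ∑ j ∈ s, δ j := Finset.sum_nonneg fun j _ => hδ j
  refine combNorm_le _ (by positivity) fun F hF => ?_
  have hF𝓕 : F ∈ 𝓕 := h.hereditary _ hF.2 _ Finset.subset_union_right
  set a : ℕ → ℝ := fun j => ∑ k ∈ F, |u j k| with ha
  have ha0 : ∀ j, 0 ≤ a j := fun j => Finset.sum_nonneg fun _ _ => abs_nonneg _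
  have ha1 : ∀ j, a j ≤ B := fun j => (le_combNorm _ hF𝓕).trans (hu2 j)
  -- the key claim
  have hkey : ∀ j j', j < j' → a j ≠ 0 → a j' ≤ δ j' := by
    intro j j' hjj' hj
    obtain ⟨k0, hk0F, hk0⟩ := Finset.exists_ne_zero_of_sum_ne_zero hj
    have hk0s : k0 ∈ (u j).support := by
      rw [Finsupp.mem_support_iff]
      intro h0
      rw [h0, abs_zero] at hk0
      exact hk0 rfl
    have hk1 := hu1 j k0 hk0s
    have hk2 : k0 ≤ M j' := hk1.2.trans (hM.monotone hjj')
    set F' := F.filter (· ∈ (u j').support) with hF'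
    have e1 : a j' = ∑ k ∈ F', |u j' k| := combNorm_le_of_filter (u j') F
    have hF's : ∀ k ∈ F', M j' < k := fun k hk => (hu1 j' k (Finset.mem_filter.mp hk).2).1
    have hmem : F' ∈ sec 𝓕 (insert (M j') A) := by
      refine ⟨?_, ?_⟩
      · intro k hk i hi
        rcases Finset.mem_insert.mp hi with rfl | hi
        · exact hF's k hk
        · exact (hAM j' i hi).trans (hF's k hk)
      · refine mem_of_inj h hF.2 (fun x : ℕ => if x = M j' then k0 else x) ?_ ?_ ?_
        · intro x hx
          by_cases hxM : x = M j'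
          · simp only [hxM, if_true]
            exact Finset.mem_union_right _ hk0F
          · simp only [hxM, if_false]
            rcases Finset.mem_union.mp hx with hx | hx
            · rcases Finset.mem_insert.mp hx with hx | hx
              · exact absurd hx hxM
              · exact Finset.mem_union_left _ hx
            · exact Finset.mem_union_right _ (Finset.mem_filter.mp hx).1
        · intro x _
          by_cases hxM : x = M j'
          · simp only [hxM, if_true]; exact hk2
          · simp only [hxM, if_false]; exact le_rfl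
        · have hne : ∀ y ∈ insert (M j') A ∪ F', y ≠ M j' → k0 ≠ y := by
            intro y hy hyM hk
            rcases Finset.mem_union.mp hy with hy | hy
            · rcases Finset.mem_insert.mp hy with hy | hy
              · exact hyM hy
              · have := hAM j y hy
                omega
            · have := hF's y hy
              omega
          intro x hx y hy hxy
          simp only at hxy
          by_cases hxM : x = M j' <;> by_cases hyM : y = M j'
          · rw [hxM, hyM]
          · rw [if_pos hxM, if_neg hyM] at hxy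
            exact absurd hxy (hne y hy hyM)
          · rw [if_neg hxM, if_pos hyM] at hxy
            exact absurd hxy.symm (hne x hx hxM)
          · rw [if_neg hxM, if_neg hyM] at hxy
            exact hxy
    rw [e1]
    exact (le_combNorm _ hmem).trans (hu3 j')
  have hsum : ∑ j ∈ s, a j ≤ B + ∑ j ∈ s, δ j := by
    by_cases hall : ∀ j ∈ s, a j = 0
    · rw [Finset.sum_eq_zero hall]; positivity
    · push Not at hall
      set J := s.filter (fun j => a j ≠ 0) with hJ
      have hJne : J.Nonempty := by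
        obtain ⟨j, hj, hj0⟩ := hall
        exact ⟨j, Finset.mem_filter.mpr ⟨hj, hj0⟩⟩
      set j0 := J.min' hJne with hj0
      have hj0J : j0 ∈ J := Finset.min'_mem _ _
      have hb : ∀ j ∈ s, a j ≤ (if j = j0 then B else 0) + δ j := by
        intro j hj
        rcases lt_trichotomy j j0 with hlt | heq | hgt
        · have h0 : a j = 0 := by
            by_contra hne
            have := Finset.min'_le J j (Finset.mem_filter.mpr ⟨hj, hne⟩)
            omega
          rw [h0, if_neg (by omega), zero_add]; exact hδ j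
        · rw [if_pos heq]; linarith [ha1 j, hδ j]
        · rw [if_neg (by omega), zero_add]
          exact hkey j0 j hgt (Finset.mem_filter.mp hj0J).2
      refine (Finset.sum_le_sum hb).trans ?_
      rw [Finset.sum_add_distrib, Finset.sum_ite_eq', if_pos (Finset.mem_filter.mp hj0J).1]
  have hxk : ∀ k, (∑ j ∈ s, u j) k = ∑ j ∈ s, u j k := by
    intro k
    rw [Finsupp.finsetSum_apply]
  calc ∑ k ∈ F, |(∑ j ∈ s, u j) k| ≤ ∑ k ∈ F, ∑ j ∈ s, |u j k| := by
        refine Finset.sum_le_sum fun k _ => ?_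
        rw [hxk]
        exact Finset.abs_sum_le_sum_abs _ _
    _ = ∑ j ∈ s, a j := by
        rw [Finset.sum_comm]
    _ ≤ B + ∑ j ∈ s, δ j := hsum

/-- The total mass of a finitely supported function. -/
noncomputable def mass : (ℕ →₀ ℝ) →ₗ[ℝ] ℝ := Finsupp.linearCombination ℝ fun _ => (1 : ℝ)

omit h in
theorem mass_single (l : ℕ) (c : ℝ) : mass (Finsupp.single l c) = c := by
  simp [mass]

/-- Coefficients of convex combinations of the terms of index at least `n`. -/
structure IsConv (n : ℕ) (c : ℕ →₀ ℝ) : Prop where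
  nonneg : ∀ l, 0 ≤ c l
  mass_eq : mass c = 1
  tail : ∀ l, l < n → c l = 0

omit h in
theorem mass_eq_sum (c : ℕ →₀ ℝ) : mass c = ∑ l ∈ c.support, c l := by
  rw [mass, Finsupp.linearCombination_apply, Finsupp.sum]
  simp

omit h in
theorem IsConv.mono {n n' : ℕ} {c : ℕ →₀ ℝ} (hc : IsConv n c) (hn : n' ≤ n) : IsConv n' c :=
  ⟨hc.nonneg, hc.mass_eq, fun l hl => hc.tail l (by omega)⟩

omit h in
theorem IsConv.average {n L : ℕ} (hL : 0 < L) {c : ℕ → (ℕ →₀ ℝ)} (hc : ∀ j, IsConv n (c j)) :
    IsConv n ((L : ℝ)⁻¹ • ∑ j ∈ Finset.range L, c j) := by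
  have hL' : (L : ℝ) ≠ 0 := by positivity
  refine ⟨fun l => ?_, ?_, fun l hl => ?_⟩
  · rw [Finsupp.smul_apply, Finsupp.finsetSum_apply, smul_eq_mul]
    have : 0 ≤ ∑ j ∈ Finset.range L, c j l := Finset.sum_nonneg fun j _ => (hc j).nonneg l
    positivity
  · rw [map_smul, map_sum, Finset.sum_congr rfl fun j _ => (hc j).mass_eq]
    simp [hL']
  · rw [Finsupp.smul_apply, Finsupp.finsetSum_apply, Finset.sum_eq_zero fun j _ => (hc j).tail l hl,
      smul_zero]

omit h in
/-- A convex bound passes to the convex combinations. -/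
theorem combNorm_conv_le {𝓖 : Set (Finset ℕ)} {n : ℕ} {c : ℕ →₀ ℝ} (hc : IsConv n c)
    (b : ℕ → (ℕ →₀ ℝ)) (B : ℝ) (hb : ∀ l, combNorm 𝓖 (b l) ≤ B) :
    combNorm 𝓖 (Finsupp.linearCombination ℝ b c) ≤ B := by
  classical
  rw [Finsupp.linearCombination_apply, Finsupp.sum]
  have h1 : ∀ s : Finset ℕ, combNorm 𝓖 (∑ l ∈ s, c l • b l) ≤ ∑ l ∈ s, c l * B := by
    intro s
    induction s using Finset.induction_on with
    | empty =>
      simp only [Finset.sum_empty]
      exact combNorm_le _ le_rfl fun F _ => by simp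
    | insert a s ha ih =>
      rw [Finset.sum_insert ha, Finset.sum_insert ha]
      refine (combNorm_add_le _ _ _).trans (add_le_add ?_ ih)
      rw [combNorm_smul, abs_of_nonneg (hc.nonneg a)]
      exact mul_le_mul_of_nonneg_left (hb a) (hc.nonneg a)
  refine (h1 _).trans ?_
  rw [← Finset.sum_mul, ← mass_eq_sum, hc.mass_eq, one_mul]

/-- Bounded sequences of finitely supported vectors moving to infinity have convex combinations of
tails with arbitrarily small norms. -/
theorem exists_small_conv (b : ℕ → (ℕ →₀ ℝ)) (B : ℝ) (hb : ∀ l, combNorm 𝓕 (b l) ≤ B)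
    (hmin : ∀ n, ∃ l0, ∀ l ≥ l0, ∀ k ∈ (b l).support, n < k) (ε : ℝ) (hε : 0 < ε) (n0 : ℕ) :
    ∃ c, IsConv n0 c ∧ combNorm 𝓕 (Finsupp.linearCombination ℝ b c) < ε := by
  classical
  by_contra hcon
  push Not at hcon
  set P : Finset ℕ → Prop := fun A => ∃ δ : ℝ, 0 < δ ∧ ∃ n, ∀ c, IsConv n c →
    δ ≤ combNorm (sec 𝓕 A) (Finsupp.linearCombination ℝ b c) with hP
  have hP0 : P ∅ := ⟨ε, hε, n0, fun c hc => by rw [sec_empty]; exact hcon c hc⟩
  have hPm : ∀ A, P A → A ∈ 𝓕 := by
    rintro A ⟨δ, hδ, n, hA⟩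
    by_contra hAF
    have h1 : sec 𝓕 A = ∅ := by
      ext F
      simp only [sec, Set.mem_ofPred_eq, Set.mem_empty_iff_false, iff_false, not_and]
      intro _ h2
      exact hAF (h.hereditary _ h2 _ Finset.subset_union_left)
    have h2 := hA (Finsupp.single n 1) ⟨fun l => by
        rw [Finsupp.single_apply]; split_ifs <;> norm_num, mass_single _ _, fun l hl => by
        rw [Finsupp.single_apply, if_neg (by omega)]⟩
    rw [h1] at h2
    have h3 : ∀ a : ℕ →₀ ℝ, combNorm ∅ a = 0 := fun a => by simp [combNorm]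
    rw [h3] at h2
    linarith
  obtain ⟨A, ⟨δ, hδ, n, hA⟩, hmax⟩ := exists_maximal_of h P hP0 hPm
  choose l0 hl0 using hmin
  -- the choice of the blocks
  have hstep : ∀ (j m : ℕ), ∃ c : ℕ →₀ ℝ, (∀ i ∈ A, i < m) → IsConv (max n (l0 m)) c ∧
      combNorm (sec 𝓕 (insert m A)) (Finsupp.linearCombination ℝ b c) ≤ (1 / 2) ^ (j + 1) := by
    intro j m
    by_cases hm : ∀ i ∈ A, i < m
    · have h1 := hmax m hm
      simp only [hP] at h1
      push Not at h1
      obtain ⟨c, hc1, hc2⟩ := h1 ((1 / 2) ^ (j + 1)) (by positivity) (max n (l0 m))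
      exact ⟨c, fun _ => ⟨hc1, hc2.le⟩⟩
    · exact ⟨0, fun h' => absurd h' hm⟩
  choose U hU using hstep
  set V : ℕ → ℕ → (ℕ →₀ ℝ) := fun j m => Finsupp.linearCombination ℝ b (U j m) with hV
  set M0 : ℕ := A.sup id + 1 with hM0
  let M : ℕ → ℕ := fun n => Nat.rec M0 (fun j m => max (m + 1) ((V j m).support.sup id)) n
  have hM00 : M 0 = M0 := rfl
  have hMs : ∀ j, M (j + 1) = max (M j + 1) ((V j (M j)).support.sup id) := fun j => rfl
  clear_value M
  have hMlt : ∀ j, M j < M (j + 1) := fun j => by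
    rw [hMs]; exact lt_of_lt_of_le (Nat.lt_succ_self _) (le_max_left _ _)
  have hMmono : StrictMono M := strictMono_nat_of_lt_succ hMlt
  have hMge : ∀ j, M0 ≤ M j := fun j => by
    rw [← hM00]; exact hMmono.monotone (Nat.zero_le j)
  have hAM : ∀ j, ∀ i ∈ A, i < M j := by
    intro j i hi
    have h1 : i ≤ A.sup id := Finset.le_sup (f := id) hi
    have h2 := hMge j
    omega
  set u : ℕ → (ℕ →₀ ℝ) := fun j => V j (M j) with hu
  have hc1 : ∀ j, IsConv (max n (l0 (M j))) (U j (M j)) := fun j => (hU j (M j) (hAM j)).1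
  have hu1 : ∀ j, ∀ k ∈ (u j).support, M j < k ∧ k ≤ M (j + 1) := by
    intro j k hk
    refine ⟨?_, ?_⟩
    · rw [Finsupp.mem_support_iff] at hk
      have h1 : u j k = ∑ l ∈ (U j (M j)).support, U j (M j) l * b l k := by
        rw [hu, hV]
        simp only [Finsupp.linearCombination_apply, Finsupp.sum, Finsupp.finsetSum_apply,
          Finsupp.smul_apply, smul_eq_mul]
      rw [h1] at hk
      obtain ⟨l, hl, hlk⟩ := Finset.exists_ne_zero_of_sum_ne_zero hk
      have h2 : ¬ l < max n (l0 (M j)) := fun h' => by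
        rw [(hc1 j).tail l h', zero_mul] at hlk
        exact hlk rfl
      refine hl0 (M j) l ?_ k ?_
      · have := le_max_right n (l0 (M j)); omega
      · rw [Finsupp.mem_support_iff]
        intro h0
        rw [h0, mul_zero] at hlk
        exact hlk rfl
    · rw [hMs]
      exact (Finset.le_sup (f := id) hk).trans (le_max_right _ _)
  have hB : 0 ≤ B := (combNorm_nonneg _ _).trans (hb 0)
  have hu2 : ∀ j, combNorm 𝓕 (u j) ≤ B := fun j => combNorm_conv_le (hc1 j) b B hb
  have hu3 : ∀ j, combNorm (sec 𝓕 (insert (M j) A)) (u j) ≤ (1 / 2) ^ (j + 1) :=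
    fun j => (hU j (M j) (hAM j)).2
  obtain ⟨L, hL⟩ := exists_nat_gt ((B + 1) / δ)
  have hLpos : 0 < L := by
    have : (0 : ℝ) ≤ (B + 1) / δ := by positivity
    exact_mod_cast this.trans_lt hL
  have hL' : (0 : ℝ) < L := by exact_mod_cast hLpos
  have h1 := combNorm_blocks_le h A M hMmono hAM u (fun j => (1 / 2) ^ (j + 1))
    (fun j => by positivity) hu1 B hB hu2 hu3 (Finset.range L)
  have h2 := hA _ (IsConv.average hLpos (c := fun j => U j (M j))
    fun j => (hc1 j).mono (le_max_left _ _))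
  rw [map_smul, map_sum, combNorm_smul, abs_of_pos (inv_pos.mpr hL')] at h2
  have h3 : combNorm (sec 𝓕 A) (∑ j ∈ Finset.range L,
      Finsupp.linearCombination ℝ b (U j (M j))) ≤ B + 1 :=
    h1.trans (by have := sum_half_pow_le (Finset.range L); linarith)
  rw [← div_eq_inv_mul, le_div_iff₀ hL'] at h2
  rw [div_lt_iff₀ hδ] at hL
  nlinarith

end Regular

end Pool.Agent.Comb7f333f
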