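import Pool.Agent.Lib.MP_7f333f_an.Neg.Seq

set_option autoImplicit false
set_option linter.unusedSectionVars false

/-!
There is no symmetric sequence of isometric embeddings of the combinatorial space into itself.
-/

namespace Pool.Agent.Comb7f333f

open Filter Topology

section Ops

variable {𝓕 : Set (Finset ℕ)} {X : Type*} [NormedAddCommGroup X] [NormedSpace ℝ X] {e : ℕ → X}

variable (h : IsRegular 𝓕) (hX : IsCombSpace 𝓕 e)

include h hX

theorem ef_basis (k i : ℕ) : ef e k (e i) = if i = k then 1 else 0 := by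
  have h1 : e i = Finsupp.linearCombination ℝ e (Finsupp.single i 1) := by simp
  rw [h1, ef_emb h hX, Finsupp.single_apply]

/-- Sums of basis vectors over images of the sets of the family. -/
theorem card_le_norm_sum (φ : ℕ → ℕ) (hφ : StrictMono φ) {F : Finset ℕ} (hF : F ∈ 𝓕) :
    (F.card : ℝ) ≤ ‖∑ l ∈ F, e (φ l)‖ := by
  classical
  have hmem : F.image φ ∈ 𝓕 := by
    set l : Fin F.card → ℕ := fun i => F.orderEmbOfFin rfl i with hl
    have hlm : StrictMono l := (F.orderEmbOfFin rfl).strictMono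
    have hlF : Finset.univ.image l = F := by
      ext x
      rw [← Finset.mem_coe (s := F), ← Finset.range_orderEmbOfFin F rfl]
      simp [hl]
    have h1 := h.spreading F.card l (φ ∘ l) hlm (hφ.comp hlm) (fun i => hφ.id_le _)
      (by rw [hlF]; exact hF)
    rwa [← Finset.image_image, hlF] at h1
  refine le_trans ?_ (sum_ef_le h hX hmem _)
  rw [Finset.sum_image fun a _ b _ hab => hφ.injective hab]
  have h2 : ∀ l ∈ F, |ef e (φ l) (∑ l' ∈ F, e (φ l'))| = 1 := by
    intro l hl
    rw [map_sum, Finset.sum_congr rfl fun l' _ => ef_basis h hX (φ l) (φ l')]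
    have h3 : ∀ l' ∈ F, (if φ l' = φ l then (1 : ℝ) else 0) = if l' = l then 1 else 0 := by
      intro l' _
      by_cases hll : l' = l
      · rw [if_pos hll, if_pos (by rw [hll])]
      · rw [if_neg hll, if_neg fun h' => hll (hφ.injective h')]
    rw [Finset.sum_congr rfl h3, Finset.sum_ite_eq', if_pos hl, abs_one]
  rw [Finset.sum_congr rfl h2]
  simp

variable {N : Seminorm ℝ X} {c C : ℝ} (hc : 0 < c) (hC : 0 < C)
  (hN : ∀ x, c * ‖x‖ ≤ N x ∧ N x ≤ C * ‖x‖) (hcC : c ≤ C)
  (hU : ∀ r : ℕ, ∃ F ∈ 𝓕, r ≤ F.card)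

include hc hC hN hcC hU

/-- The images of the basis vectors under an isometric embedding have large section sums. -/
theorem exists_section_ge (T : X →L[ℝ] X) (hT : ∀ x, N (T x) = N x) :
    ∃ m i0 : ℕ, ∀ i, i0 ≤ i → ∃ A ∈ sec 𝓕 {m},
      c / (8 * C) ≤ ∑ k ∈ A, |ef e k (T (e i))| := by
  classical
  by_contra hcon
  push Not at hcon
  have hTn : ∀ x, ‖T x‖ ≤ (C / c) * ‖x‖ := by
    intro x
    have h1 := (hN (T x)).1
    rw [hT] at h1
    have h2 := (hN x).2
    rw [div_mul_eq_mul_div, le_div_iff₀ hc]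
    linarith
  have hB : ∀ i, ‖T (e i)‖ ≤ C / c := fun i => (hTn _).trans (by
    have h1 := norm_basis_le hX i
    have h2 : 0 ≤ C / c := by positivity
    nlinarith)
  have hcoord : ∀ k, Tendsto (fun i => ef e k (T (e i))) atTop (𝓝 0) := fun k =>
    tendsto_functional h hX ((ef e k).comp T)
  have hδ : 0 < c / (4 * C) := by positivity
  have hδ1 : c / (4 * C) ≤ 1 := by
    rw [div_le_one (by positivity)]
    linarith
  obtain ⟨φ, hφ, hφ2⟩ := exists_subseq_of_good h hX (fun i => T (e i)) (C / c) hB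
    (fun _ => c / (4 * C)) (fun _ => hδ) (fun _ => hδ1) (by
      intro M j0 l
      have h2 := good_of_tendsto h hX (fun i => T (e i)) hcoord M (c / (4 * C)) hδ
      obtain ⟨i0, hi0⟩ := Filter.eventually_atTop.mp h2
      obtain ⟨i, hi, hi2⟩ := hcon M (max i0 (j0 + 1))
      refine ⟨i, ?_, hi0 i ?_ fun G hG => ?_⟩
      · have := le_max_right i0 (j0 + 1); omega
      · have := le_max_left i0 (j0 + 1); omega
      · have h3 := (hi2 G hG).le
        have h4 : c / (8 * C) = c / (4 * C) / 2 := by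
          rw [div_div]; congr 1; ring
        rwa [h4] at h3)
  obtain ⟨r, hr⟩ := exists_nat_gt ((C / c + 1) * (2 * C / c))
  obtain ⟨F, hF, hrF⟩ := hU r
  have h1 := hφ2 F
  have h2 := card_le_norm_sum h hX φ hφ hF
  have h3 : c * ‖∑ l ∈ F, e (φ l)‖ ≤ C * ‖∑ l ∈ F, T (e (φ l))‖ := by
    have h4 := (hN (∑ l ∈ F, e (φ l))).1
    rw [← hT, map_sum] at h4
    exact h4.trans (hN _).2
  rw [Finset.sum_const, nsmul_eq_mul] at h1
  have hrF' : (r : ℝ) ≤ F.card := by exact_mod_cast hrF
  have h5 : C * ‖∑ l ∈ F, T (e (φ l))‖ ≤ C * (C / c + 1) + c / 2 * F.card := by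
    have h6 := mul_le_mul_of_nonneg_left h1 hC.le
    have h7 : C * (C / c + 1 + 2 * (F.card * (c / (4 * C)))) =
        C * (C / c + 1) + c / 2 * F.card := by
      field_simp
      ring
    linarith
  have h6 : c / 2 * F.card ≤ C * (C / c + 1) := by
    have h7 := mul_le_mul_of_nonneg_left h2 hc.le
    linarith
  have h7 : (C / c + 1) * (2 * C / c) * (c / 2) = C * (C / c + 1) := by
    field_simp
  have h8 : (C / c + 1) * (2 * C / c) < F.card := hr.trans_le hrF'
  have h9 : (C / c + 1) * (2 * C / c) * (c / 2) < F.card * (c / 2) :=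
    mul_lt_mul_of_pos_right h8 (by positivity)
  linarith

/-- There is no symmetric sequence of isometric embeddings. -/
theorem no_symmetric_embeddings [CompleteSpace X] (hF : FarUnions 𝓕) (T : ℕ → (X →L[ℝ] X))
    (hT : ∀ j x, N (T j x) = N x) (hsym : ∀ x, Sym N fun j => T j x) : False := by
  classical
  have hTn : ∀ j x, ‖T j x‖ ≤ (C / c) * ‖x‖ := by
    intro j x
    have h1 := (hN (T j x)).1
    rw [hT] at h1
    have h2 := (hN x).2
    rw [div_mul_eq_mul_div, le_div_iff₀ hc]
    linarith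
  -- uniform boundedness
  obtain ⟨K0, hK0⟩ := banach_steinhaus (g := fun L : ℕ => ∑ i : Fin L, T i) (by
    intro x
    obtain ⟨K, hK⟩ := Sym.bounded_sums h hX hc hN hF (hsym x) _ fun j => hTn j x
    refine ⟨K / c, fun L => ?_⟩
    rw [sum_apply, le_div_iff₀ hc]
    have h1 := (hN (∑ i : Fin L, T i x)).1
    have h2 := hK L
    linarith)
  have hbound : ∀ (J : ℕ) (θ : Fin J → ℝ), (∀ i, θ i = 1 ∨ θ i = -1) → ∀ x,
      ‖∑ i, θ i • T i x‖ ≤ (C * K0 / c) * ‖x‖ := by
    intro J θ hθ x
    have h1 := Sym.sum_eq h hX hc hN (hsym x) J (fun i => i) Fin.val_injective θ hθ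
    have h2 := (hN (∑ i : Fin J, T i x)).2
    have h3 : ‖∑ i : Fin J, T i x‖ ≤ K0 * ‖x‖ := by
      have h4 := (∑ i : Fin J, T i).le_opNorm x
      rw [sum_apply] at h4
      exact h4.trans (mul_le_mul_of_nonneg_right (hK0 J) (norm_nonneg _))
    have h4 := mul_le_mul_of_nonneg_left h3 hC.le
    rw [div_mul_eq_mul_div, le_div_iff₀ hc]
    linarith
  -- the sections
  choose m i0 hmi using fun j => exists_section_ge h hX hc hC hN hcC hU (T j) (hT j)
  set δ : ℝ := c / (8 * C) with hδ
  have hδ0 : 0 < δ := by positivity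
  set K : ℝ := |C * K0 / c| with hK
  obtain ⟨J, hJ⟩ := exists_nat_gt (12 * K ^ 2 / δ ^ 2)
  have hJ0 : (0 : ℝ) < J := lt_of_le_of_lt (by positivity) hJ
  set m' : ℕ := Finset.univ.sup fun j : Fin J => m j with hm'
  have hmm' : ∀ j : Fin J, m j ≤ m' := fun j =>
    Finset.le_sup (f := fun j : Fin J => m j) (Finset.mem_univ j)
  obtain ⟨M0, hM0⟩ := hF m' J
  set M := max M0 m' with hM
  -- a far index
  have hev : ∀ᶠ i in atTop, ∀ j : Fin J, i0 j ≤ i ∧
      ∑ k ∈ Finset.range (M + 1), |ef e k (T j (e i))| < δ / 2 := by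
    rw [Filter.eventually_all]
    intro j
    refine (eventually_ge_atTop (i0 j)).and ?_
    have h2 : Tendsto (fun i => ∑ k ∈ Finset.range (M + 1), |ef e k (T j (e i))|) atTop
        (𝓝 (∑ _k ∈ Finset.range (M + 1), (0 : ℝ))) := by
      refine tendsto_finsetSum _ fun k _ => ?_
      have := (tendsto_functional h hX ((ef e k).comp (T j))).abs
      rwa [abs_zero] at this
    rw [Finset.sum_const_zero] at h2
    exact h2.eventually_lt_const (by positivity)
  obtain ⟨i, hi⟩ := hev.exists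
  choose A hA1 hA2 using fun j : Fin J => hmi j i (hi j).1
  set A' : Fin J → Finset ℕ := fun j => (A j).filter (M < ·) with hA'
  have hA'3 : ∀ j, δ / 2 ≤ ∑ k ∈ A' j, |ef e k (T j (e i))| := by
    intro j
    have h3 := Finset.sum_filter_add_sum_filter_not (A j) (M < ·) fun k => |ef e k (T j (e i))|
    have h4 : ∑ k ∈ (A j).filter (fun k => ¬ M < k), |ef e k (T j (e i))| ≤
        ∑ k ∈ Finset.range (M + 1), |ef e k (T j (e i))| := by
      refine Finset.sum_le_sum_of_subset_of_nonneg (fun k hk => ?_) fun _ _ _ => abs_nonneg _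
      rw [Finset.mem_filter] at hk
      rw [Finset.mem_range]
      omega
    have h5 := (hi j).2
    have h6 := hA2 j
    simp only [hA']
    linarith
  have hA'1 : ∀ j, insert m' (A' j) ∈ 𝓕 ∧ ∀ k ∈ A' j, M0 < k := by
    intro j
    have h0 : ∀ k ∈ A' j, M < k := fun k hk => (Finset.mem_filter.mp hk).2
    have h0' : M0 ≤ M ∧ m' ≤ M := ⟨le_max_left _ _, le_max_right _ _⟩
    refine ⟨?_, fun k hk => by have := h0 k hk; omega⟩
    have h1 : insert (m j) (A' j) ∈ 𝓕 := by
      refine h.hereditary _ (hA1 j).2 _ ?_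
      rw [← Finset.insert_eq]
      exact Finset.insert_subset_insert _ (Finset.filter_subset _ _)
    refine mem_of_inj h h1 (fun x => if x = m' then m j else x) ?_ ?_ ?_
    · intro x hx
      by_cases hxm : x = m'
      · simp only [hxm, if_true]
        exact Finset.mem_insert_self _ _
      · simp only [hxm, if_false]
        exact Finset.mem_insert_of_mem ((Finset.mem_insert.mp hx).resolve_left hxm)
    · intro x _
      by_cases hxm : x = m'
      · simp only [hxm, if_true]; exact hmm' j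
      · simp only [hxm, if_false]; exact le_rfl
    · have hne : ∀ y ∈ insert m' (A' j), y ≠ m' → m j ≠ y := by
        intro y hy hym hmy
        have h2 := h0 y ((Finset.mem_insert.mp hy).resolve_left hym)
        have h3 := hmm' j
        omega
      intro x hx y hy hxy
      simp only at hxy
      by_cases hxM : x = m' <;> by_cases hyM : y = m'
      · rw [hxM, hyM]
      · rw [if_pos hxM, if_neg hyM] at hxy
        exact absurd hxy (hne y hy hyM)
      · rw [if_neg hxM, if_pos hyM] at hxy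
        exact absurd hxy.symm (hne x hx hxM)
      · rw [if_neg hxM, if_neg hyM] at hxy
        exact hxy
  set D : Finset ℕ := Finset.univ.biUnion A' with hD
  have hD𝓕 : D ∈ 𝓕 := hM0 A' hA'1
  obtain ⟨θ, hθ1, hθ2⟩ := exists_sign_ge J (fun j : Fin J => T j (e i))
    (fun v => ∑ k ∈ D, |ef e k v|) 0
  rw [zero_add] at hθ2
  have h1 : J * (δ / 2) / Real.sqrt (3 * J) ≤
      ravg J (fun j : Fin J => T j (e i)) (fun v => ∑ k ∈ D, |ef e k v|) 0 := by
    rw [ravg_sum D (fun k v => |ef e k v|)]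
    have h2 : ∀ k ∈ D, (∑ j : Fin J, |ef e k (T j (e i))|) / Real.sqrt (3 * J) ≤
        ravg J (fun j : Fin J => T j (e i)) (fun v => |ef e k v|) 0 := by
      intro k _
      have h3 := ravg_comp (ef e k : X →ₗ[ℝ] ℝ) (fun t => |t|) J (fun j : Fin J => T j (e i)) 0
      simp only [ContinuousLinearMap.coe_coe, map_zero] at h3
      rw [h3]
      exact khintchine_l1 J fun j : Fin J => ef e k (T j (e i))
    refine le_trans ?_ (Finset.sum_le_sum h2)
    rw [← Finset.sum_div, Finset.sum_comm]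
    refine div_le_div_of_nonneg_right ?_ (Real.sqrt_nonneg _)
    have h3 : ∀ j ∈ (Finset.univ : Finset (Fin J)), δ / 2 ≤ ∑ k ∈ D, |ef e k (T j (e i))| := by
      intro j _
      refine (hA'3 j).trans (Finset.sum_le_sum_of_subset_of_nonneg ?_ fun _ _ _ => abs_nonneg _)
      exact Finset.subset_biUnion_of_mem A' (Finset.mem_univ j)
    have h4 := Finset.card_nsmul_le_sum _ _ _ h3
    rwa [Finset.card_univ, Fintype.card_fin, nsmul_eq_mul] at h4
  have h2 := sum_ef_le h hX hD𝓕 (∑ j : Fin J, θ j • T j (e i))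
  have h3 := hbound J θ hθ1 (e i)
  have h4 : (C * K0 / c) * ‖e i‖ ≤ K := by
    have h5 := norm_basis_le hX i
    have h6 : (C * K0 / c) * ‖e i‖ ≤ K * ‖e i‖ :=
      mul_le_mul_of_nonneg_right (le_abs_self _) (norm_nonneg _)
    have h7 : 0 ≤ K := abs_nonneg _
    nlinarith
  have h5 : J * (δ / 2) / Real.sqrt (3 * J) ≤ K := by linarith
  have hsq : 0 < Real.sqrt (3 * J) := Real.sqrt_pos.mpr (by positivity)
  rw [div_le_iff₀ hsq] at h5
  have h6 : (J * (δ / 2)) ^ 2 ≤ (K * Real.sqrt (3 * J)) ^ 2 :=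
    pow_le_pow_left₀ (by positivity) h5 2
  rw [mul_pow K, Real.sq_sqrt (by positivity)] at h6
  rw [div_lt_iff₀ (by positivity)] at hJ
  have h7 : (J : ℝ) * (J * δ ^ 2) ≤ J * (12 * K ^ 2) := by nlinarith
  have h8 := le_of_mul_le_mul_left h7 hJ0
  linarith

end Ops

end Pool.Agent.Comb7f333f
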