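import Pool.Agent.Lib.MP_7f333f_an.Neg.Zoom
import Pool.Agent.Lib.MP_7f333f_an.Neg.Ops

set_option autoImplicit false

/-!
Limits of elements of an isometry group along a decreasing sequence of supports.
-/

namespace Pool.Agent.Comb7f333f

open Filter Topology Equiv

theorem separable_of_isCombSpace {𝓕 : Set (Finset ℕ)} {X : Type*} [NormedAddCommGroup X]
    [NormedSpace ℝ X] {e : ℕ → X} (hX : IsCombSpace 𝓕 e) :
    TopologicalSpace.SeparableSpace X := by
  rw [← TopologicalSpace.isSeparable_univ_iff]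
  have h1 : closure (Set.range (Finsupp.linearCombination ℝ e)) = Set.univ :=
    hX.dense.closure_range
  rw [← h1]
  refine TopologicalSpace.IsSeparable.closure ?_
  have h2 : Set.range (Finsupp.linearCombination ℝ e) =
      (Submodule.span ℝ (Set.range e) : Set X) := by
    rw [← Finsupp.range_linearCombination]; rfl
  rw [h2]
  exact (Set.countable_range e).isSeparable.span

/-- An injection of a set of integers into the integers extends to a permutation if the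
complements are infinite. -/
theorem exists_perm_extend (S : Set ℕ) (f : ℕ → ℕ) (hf : Set.InjOn f S) (hS : Sᶜ.Infinite)
    (hf' : (f '' S)ᶜ.Infinite) : ∃ σ : Perm ℕ, ∀ k ∈ S, σ k = f k := by
  classical
  have e1 : {k // k ∈ S} ≃ {k // k ∈ f '' S} := Set.BijOn.equiv f hf.bijOn_image
  have : Infinite {k // ¬ k ∈ S} := hS.to_subtype
  have : Infinite {k // ¬ k ∈ f '' S} := hf'.to_subtype
  obtain ⟨e2⟩ : Nonempty ({k // ¬ k ∈ S} ≃ {k // ¬ k ∈ f '' S}) := nonempty_equiv_of_countable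
  refine ⟨Equiv.subtypeCongr (Set.BijOn.equiv f hf.bijOn_image) e2, fun k hk => ?_⟩
  simp [Equiv.subtypeCongr, Equiv.sumCompl_symm_apply_of_pos hk, Set.BijOn.equiv]

section Isom

variable {X : Type*} [NormedAddCommGroup X] [NormedSpace ℝ X] {N : Seminorm ℝ X} {c C : ℝ}

theorem isom_apply (g : isomGroup N) (x : X) : N ((g : X ≃ₗ[ℝ] X) x) = N x := g.2 x

theorem isom_mul (g g' : isomGroup N) (x : X) :
    ((g * g' : isomGroup N) : X ≃ₗ[ℝ] X) x = (g : X ≃ₗ[ℝ] X) ((g' : X ≃ₗ[ℝ] X) x) := rfl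

theorem isom_apply_inv (g : isomGroup N) (x : X) :
    (g : X ≃ₗ[ℝ] X) (((g⁻¹ : isomGroup N) : X ≃ₗ[ℝ] X) x) = x :=
  LinearEquiv.apply_symm_apply _ x

theorem isom_one (x : X) : ((1 : isomGroup N) : X ≃ₗ[ℝ] X) x = x := rfl

theorem isom_dist (g : isomGroup N) (x y : X) :
    N ((g : X ≃ₗ[ℝ] X) x - (g : X ≃ₗ[ℝ] X) y) = N (x - y) := by
  rw [← map_sub, isom_apply]

theorem isLen_dist [TopologicalSpace.SeparableSpace X] (hC : 0 < C)
    (hN : ∀ x, N x ≤ C * ‖x‖) (F : Finset X) :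
    IsLen (fun g : isomGroup N => ∑ x ∈ F, N ((g : X ≃ₗ[ℝ] X) x - x)) where
  one := by
    refine Finset.sum_eq_zero fun x _ => ?_
    rw [isom_one, sub_self, map_zero]
  inv g := by
    refine Finset.sum_congr rfl fun x _ => ?_
    rw [← isom_apply g, map_sub, isom_apply_inv, map_sub_rev]
  mul g g' := by
    rw [← Finset.sum_add_distrib]
    refine Finset.sum_le_sum fun x _ => ?_
    rw [isom_mul]
    have h1 := map_add_le_add N ((g : X ≃ₗ[ℝ] X) x - x)
      ((g : X ≃ₗ[ℝ] X) ((g' : X ≃ₗ[ℝ] X) x) - (g : X ≃ₗ[ℝ] X) x)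
    rw [isom_dist, show (g : X ≃ₗ[ℝ] X) x - x +
      ((g : X ≃ₗ[ℝ] X) ((g' : X ≃ₗ[ℝ] X) x) - (g : X ≃ₗ[ℝ] X) x) =
      (g : X ≃ₗ[ℝ] X) ((g' : X ≃ₗ[ℝ] X) x) - x by abel] at h1
    exact h1
  sep η hη := by
    classical
    set Φ : isomGroup N → (F → X) := fun g x => (g : X ≃ₗ[ℝ] X) x with hΦ
    have hsep : TopologicalSpace.IsSeparable (Set.range Φ) :=
      TopologicalSpace.IsSeparable.of_separableSpace _
    obtain ⟨t, ht1, ht2, ht3⟩ := hsep.exists_countable_dense_subset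
    have htne : t.Nonempty := by
      have h1 : Φ 1 ∈ closure t := ht3 ⟨1, rfl⟩
      exact closure_nonempty_iff.mp ⟨_, h1⟩
    obtain ⟨f, hf⟩ := ht2.exists_eq_range htne
    choose g hg using fun n => ht1 (show f n ∈ t by rw [hf]; exact ⟨n, rfl⟩)
    refine ⟨g, fun g' => ?_⟩
    have h1 : Φ g' ∈ closure t := ht3 ⟨g', rfl⟩
    have hδ : 0 < η / (C * (F.card + 1)) := by positivity
    obtain ⟨b, hb, hb2⟩ := Metric.mem_closure_iff.mp h1 _ hδ
    rw [hf] at hb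
    obtain ⟨n, rfl⟩ := hb
    refine ⟨n, ?_⟩
    have h2 : ∀ x ∈ F, N ((((g n)⁻¹ * g' : isomGroup N) : X ≃ₗ[ℝ] X) x - x) ≤
        C * (η / (C * (F.card + 1))) := by
      intro x hx
      rw [← isom_apply (g n), map_sub, isom_mul, isom_apply_inv]
      refine (hN _).trans (mul_le_mul_of_nonneg_left ?_ hC.le)
      have h3 := dist_le_pi_dist (Φ g') (f n) ⟨x, hx⟩
      rw [← hg n, dist_eq_norm] at h3
      rw [← hg n] at hb2
      exact h3.trans hb2.le
    refine (Finset.sum_le_sum h2).trans_lt ?_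
    rw [Finset.sum_const, nsmul_eq_mul]
    have h3 : (F.card : ℝ) * (C * (η / (C * (F.card + 1)))) = η * (F.card / (F.card + 1)) := by
      field_simp
    rw [h3]
    have h4 : (F.card : ℝ) / (F.card + 1) < 1 := by
      rw [div_lt_one (by positivity)]
      linarith
    nlinarith

/-- A decreasing sequence of infinite sets such that the elements supported there move less and
less. -/
theorem exists_zooms [TopologicalSpace.SeparableSpace X] (hC : 0 < C)
    (hN : ∀ x, c * ‖x‖ ≤ N x ∧ N x ≤ C * ‖x‖) (p : Perm ℕ →* isomGroup N)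
    (ε : (ℕ → ℤˣ) →* isomGroup N)
    (hpe : ∀ π s, p π * ε s * (p π)⁻¹ = ε (fun k => s (π⁻¹ k))) :
    ∃ Z : ℕ → Set ℕ, Antitone Z ∧ (∀ n, (Z n).Infinite) ∧ ∀ x, ∀ δ : ℝ, 0 < δ → ∃ n,
      (∀ π : Perm ℕ, (∀ k, k ∉ Z n → π k = k) → N ((p π : X ≃ₗ[ℝ] X) x - x) ≤ δ) ∧
      ∀ s : ℕ → ℤˣ, (∀ k, k ∉ Z n → s k = 1) → N ((ε s : X ≃ₗ[ℝ] X) x - x) ≤ δ := by
  classical
  set xs : ℕ → X := TopologicalSpace.denseSeq X with hxs
  set F : ℕ → Finset X := fun n => (Finset.range (n + 1)).image xs with hF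
  have hstep : ∀ (n : ℕ) (Z : {Z : Set ℕ // Z.Infinite}), ∃ Z' : {Z : Set ℕ // Z.Infinite},
      Z'.1 ⊆ Z.1 ∧
      (∀ π : Perm ℕ, (∀ k, k ∉ Z'.1 → π k = k) →
        ∑ x ∈ F n, N ((p π : X ≃ₗ[ℝ] X) x - x) ≤ 1 / (n + 1)) ∧
      ∀ s : ℕ → ℤˣ, (∀ k, k ∉ Z'.1 → s k = 1) →
        ∑ x ∈ F n, N ((ε s : X ≃ₗ[ℝ] X) x - x) ≤ 1 / (n + 1) := by
    intro n Z
    obtain ⟨Z', h1, h2, h3, h4⟩ := zoom (isLen_dist hC (fun x => (hN x).2) (F n)) p ε hpe Z.1 Z.2
      (1 / (n + 1)) (by positivity)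
    exact ⟨⟨Z', h2⟩, h1, h3, h4⟩
  choose step hs1 hs2 hs3 using hstep
  let Z : ℕ → {Z : Set ℕ // Z.Infinite} := fun n => Nat.rec ⟨Set.univ, Set.infinite_univ⟩
    (fun n W => step n W) n
  have hZs : ∀ n, Z (n + 1) = step n (Z n) := fun n => rfl
  clear_value Z
  have hanti : Antitone fun n => (Z n).1 := antitone_nat_of_succ_le fun n => by
    rw [hZs]; exact hs1 n (Z n)
  refine ⟨fun n => (Z n).1, hanti, fun n => (Z n).2, fun x δ hδ => ?_⟩
  obtain ⟨s0, hs0⟩ := (TopologicalSpace.denseRange_denseSeq X).exists_dist_lt x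
    (show 0 < δ / (3 * C) by positivity)
  rw [dist_eq_norm] at hs0
  have hs0' : N (x - xs s0) ≤ δ / 3 := by
    refine (hN _).2.trans ?_
    have h1 := mul_le_mul_of_nonneg_left hs0.le hC.le
    have h2 : C * (δ / (3 * C)) = δ / 3 := by field_simp
    rw [h2] at h1
    exact h1
  obtain ⟨n1, hn1⟩ := exists_nat_one_div_lt (show 0 < δ / 3 by positivity)
  set n := max s0 n1 with hn
  have hmem : xs s0 ∈ F n := by
    rw [hF]
    exact Finset.mem_image_of_mem _ (Finset.mem_range.mpr (by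
      have := le_max_left s0 n1; omega))
  have hn2 : (1 : ℝ) / (n + 1) ≤ δ / 3 := by
    refine le_trans ?_ hn1.le
    apply one_div_le_one_div_of_le (by positivity)
    have : n1 ≤ n := le_max_right s0 n1
    have : (n1 : ℝ) ≤ n := by exact_mod_cast this
    linarith
  have key : ∀ g : isomGroup N, ∑ x ∈ F n, N ((g : X ≃ₗ[ℝ] X) x - x) ≤ 1 / (n + 1) →
      N ((g : X ≃ₗ[ℝ] X) x - x) ≤ δ := by
    intro g hg
    have h1 : N ((g : X ≃ₗ[ℝ] X) (xs s0) - xs s0) ≤ δ / 3 := by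
      refine le_trans ?_ (hg.trans hn2)
      exact Finset.single_le_sum (f := fun x => N ((g : X ≃ₗ[ℝ] X) x - x))
        (fun _ _ => apply_nonneg N _) hmem
    have h2 : (g : X ≃ₗ[ℝ] X) x - x = ((g : X ≃ₗ[ℝ] X) x - (g : X ≃ₗ[ℝ] X) (xs s0)) +
        (((g : X ≃ₗ[ℝ] X) (xs s0) - xs s0) + (xs s0 - x)) := by abel
    rw [h2]
    refine (map_add_le_add N _ _).trans ?_
    have h3 := map_add_le_add N ((g : X ≃ₗ[ℝ] X) (xs s0) - xs s0) (xs s0 - x)
    rw [isom_dist]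
    rw [map_sub_rev N (xs s0) x] at h3
    linarith
  refine ⟨n + 1, fun π hπ => key _ (hs2 n (Z n) π ?_), fun s hs => key _ (hs3 n (Z n) s ?_)⟩
  · rw [← hZs]; exact hπ
  · rw [← hZs]; exact hs

end Isom

end Pool.Agent.Comb7f333f
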