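import Pool.Agent.Lib.MP_7f333f_an.Neg.Limit

set_option autoImplicit false

/-!
There is no homomorphism from the group of signed permutations of the integers to the isometry
group of a renorming of the combinatorial space which sends `-1` to `-Id`.
-/

namespace Pool.Agent.Comb7f333f

open Filter Topology Equiv

theorem no_hom {𝓕 : Set (Finset ℕ)} {X : Type*} [NormedAddCommGroup X] [NormedSpace ℝ X]
    [CompleteSpace X] {e : ℕ → X} (h : IsRegular 𝓕) (hX : IsCombSpace 𝓕 e)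
    (hU : ∀ r : ℕ, ∃ F ∈ 𝓕, r ≤ F.card) (hF : FarUnions 𝓕)
    {N : Seminorm ℝ X} {c C : ℝ} (hc : 0 < c) (hC : 0 < C)
    (hN : ∀ x, c * ‖x‖ ≤ N x ∧ N x ≤ C * ‖x‖) (hcC : c ≤ C)
    (p : Perm ℕ →* isomGroup N) (ε : (ℕ → ℤˣ) →* isomGroup N)
    (hpe : ∀ π s, p π * ε s * (p π)⁻¹ = ε (fun k => s (π⁻¹ k)))
    (hε : ∀ x, (ε (fun _ => -1) : X ≃ₗ[ℝ] X) x = -x) : False := by
  classical
  have hsep := separable_of_isCombSpace hX
  obtain ⟨Z, hZ1, hZ2, hZ3⟩ := exists_zooms hC hN p ε hpe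
  have hNcont : Continuous N := by
    refine LipschitzWith.continuous (K := ⟨C, hC.le⟩) (LipschitzWith.of_dist_le_mul fun x y => ?_)
    rw [Real.dist_eq, dist_eq_norm]
    exact (abs_sub_map_le_sub N x y).trans (hN _).2
  have hN0 : ∀ z : X, (∀ δ : ℝ, 0 < δ → N z ≤ δ) → z = 0 := by
    intro z hz
    have h1 : N z ≤ 0 := le_of_forall_pos_le_add fun δ hδ => by rw [zero_add]; exact hz δ hδ
    have h2 := (hN z).1
    have h3 : ‖z‖ ≤ 0 := by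
      by_contra hcon
      push Not at hcon
      nlinarith
    exact norm_le_zero_iff.mp h3
  -- permutations which agree outside of `Z n`
  have hclose : ∀ x, ∀ δ : ℝ, 0 < δ → ∃ n0, ∀ n, n0 ≤ n → ∀ π π' : Perm ℕ,
      (∀ k, k ∉ Z n → π k = π' k) → N ((p π : X ≃ₗ[ℝ] X) x - (p π' : X ≃ₗ[ℝ] X) x) ≤ δ := by
    intro x δ hδ
    obtain ⟨n0, hn0, _⟩ := hZ3 x δ hδ
    refine ⟨n0, fun n hn π π' hππ => ?_⟩
    have h1 := hn0 (π'⁻¹ * π) fun k hk => by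
      rw [Equiv.Perm.mul_apply, hππ k fun h' => hk (hZ1 hn h'), Equiv.Perm.inv_eq_iff_eq]
    rw [← isom_dist (p π'), ← isom_mul, ← map_mul, mul_inv_cancel_left] at h1
    exact h1
  have hsmall : ∀ x, ∀ δ : ℝ, 0 < δ → ∃ n0, ∀ n, n0 ≤ n → ∀ s : ℕ → ℤˣ,
      (∀ k, k ∉ Z n → s k = 1) → N ((ε s : X ≃ₗ[ℝ] X) x - x) ≤ δ := by
    intro x δ hδ
    obtain ⟨n0, _, hn0⟩ := hZ3 x δ hδ
    exact ⟨n0, fun n hn s hs => hn0 s fun k hk => hs k fun h' => hk (hZ1 hn h')⟩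
  -- the approximating permutations
  have hg : ∀ j n, ∃ g : Perm ℕ, ∀ k, k ∉ Z n → g k = Nat.pair j k := by
    intro j n
    obtain ⟨g, hg⟩ := exists_perm_extend (Z n)ᶜ (Nat.pair j)
      (fun k _ k' _ hkk => (Nat.pair_eq_pair.mp hkk).2) (by rw [compl_compl]; exact hZ2 n) (by
        refine Set.Infinite.mono (s := Set.range (Nat.pair (j + 1))) ?_
          (Set.infinite_range_of_injective fun k k' hkk => (Nat.pair_eq_pair.mp hkk).2)
        rintro _ ⟨k, rfl⟩ ⟨k', _, hk'⟩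
        have := (Nat.pair_eq_pair.mp hk').1
        omega)
    exact ⟨g, fun k hk => hg k hk⟩
  choose g hg using hg
  -- the limits
  have hlim : ∀ j x, ∃ z, Tendsto (fun n => (p (g j n) : X ≃ₗ[ℝ] X) x) atTop (𝓝 z) := by
    intro j x
    refine cauchySeq_tendsto_of_complete ?_
    rw [Metric.cauchySeq_iff']
    intro δ hδ
    obtain ⟨n0, hn0⟩ := hclose x (c * δ / 2) (by positivity)
    refine ⟨n0, fun n hn => ?_⟩
    have h1 := hn0 n0 le_rfl (g j n) (g j n0) fun k hk => by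
      rw [hg j n k fun h' => hk (hZ1 hn h'), hg j n0 k hk]
    rw [dist_eq_norm]
    have h2 := (hN ((p (g j n) : X ≃ₗ[ℝ] X) x - (p (g j n0) : X ≃ₗ[ℝ] X) x)).1
    have h3 : 0 < c * δ := by positivity
    by_contra hcon
    push Not at hcon
    nlinarith
  choose T0 hT0 using hlim
  have hT0N : ∀ j x, N (T0 j x) = N x := by
    intro j x
    refine tendsto_nhds_unique ((hNcont.tendsto _).comp (hT0 j x)) ?_
    refine tendsto_const_nhds.congr fun n => ?_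
    exact (isom_apply (p (g j n)) x).symm
  have happrox : ∀ j x, ∀ δ : ℝ, 0 < δ → ∃ n0, ∀ n, n0 ≤ n →
      N (T0 j x - (p (g j n) : X ≃ₗ[ℝ] X) x) ≤ δ := by
    intro j x δ hδ
    have h1 : Tendsto (fun n => N (T0 j x - (p (g j n) : X ≃ₗ[ℝ] X) x)) atTop (𝓝 0) := by
      have h2 := (hNcont.tendsto _).comp ((tendsto_const_nhds (x := T0 j x)).sub (hT0 j x))
      rw [sub_self, map_zero] at h2
      exact h2
    obtain ⟨n0, hn0⟩ := Filter.eventually_atTop.mp (h1.eventually_lt_const hδ)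
    exact ⟨n0, fun n hn => (hn0 n hn).le⟩
  set Tl : ℕ → (X →ₗ[ℝ] X) := fun j => linearMapOfTendsto (T0 j)
    (fun n => ((p (g j n) : X ≃ₗ[ℝ] X) : X →ₗ[ℝ] X)) (tendsto_pi_nhds.mpr fun x => hT0 j x)
    with hTl
  have hTl0 : ∀ j x, Tl j x = T0 j x := fun j x => rfl
  set T : ℕ → (X →L[ℝ] X) := fun j => (Tl j).mkContinuous (C / c) (fun x => by
    rw [hTl0, div_mul_eq_mul_div, le_div_iff₀ hc]
    have h1 := (hN (T0 j x)).1
    rw [hT0N] at h1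
    have h2 := (hN x).2
    linarith) with hT
  have hTT : ∀ j x, T j x = T0 j x := fun j x => rfl
  clear_value T
  -- permutations of the copies
  have hperm : ∀ σ : Perm ℕ, ∃ R : isomGroup N, ∀ j x, (R : X ≃ₗ[ℝ] X) (T j x) = T (σ j) x := by
    intro σ
    set σ' : Perm ℕ := (Nat.pairEquiv.symm.trans (σ.prodCongr (Equiv.refl ℕ))).trans Nat.pairEquiv
      with hσ'
    have hσ2 : ∀ j k, σ' (Nat.pair j k) = Nat.pair (σ j) k := by
      intro j k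
      simp [hσ']
    refine ⟨p σ', fun j x => ?_⟩
    rw [hTT, hTT, ← sub_eq_zero]
    refine hN0 _ fun δ hδ => ?_
    obtain ⟨n1, hn1⟩ := happrox j x (δ / 3) (by positivity)
    obtain ⟨n2, hn2⟩ := happrox (σ j) x (δ / 3) (by positivity)
    obtain ⟨n3, hn3⟩ := hclose x (δ / 3) (by positivity)
    set n := max n1 (max n2 n3) with hn
    have h1 := hn1 n (le_max_left _ _)
    have h2 := hn2 n ((le_max_left _ _).trans (le_max_right _ _))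
    have h3 := hn3 n ((le_max_right _ _).trans (le_max_right _ _)) (σ' * g j n) (g (σ j) n)
      fun k hk => by rw [Equiv.Perm.mul_apply, hg j n k hk, hg (σ j) n k hk, hσ2]
    rw [map_mul, isom_mul] at h3
    rw [← isom_dist (p σ')] at h1
    rw [map_sub_rev] at h2
    have h4 := map_add_le_add N ((p σ' : X ≃ₗ[ℝ] X) (T0 j x) -
      (p σ' : X ≃ₗ[ℝ] X) ((p (g j n) : X ≃ₗ[ℝ] X) x))
      (((p σ' : X ≃ₗ[ℝ] X) ((p (g j n) : X ≃ₗ[ℝ] X) x) - (p (g (σ j) n) : X ≃ₗ[ℝ] X) x) +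
      ((p (g (σ j) n) : X ≃ₗ[ℝ] X) x - T0 (σ j) x))
    have h5 := map_add_le_add N
      ((p σ' : X ≃ₗ[ℝ] X) ((p (g j n) : X ≃ₗ[ℝ] X) x) - (p (g (σ j) n) : X ≃ₗ[ℝ] X) x)
      ((p (g (σ j) n) : X ≃ₗ[ℝ] X) x - T0 (σ j) x)
    have h6 : (p σ' : X ≃ₗ[ℝ] X) (T0 j x) -
      (p σ' : X ≃ₗ[ℝ] X) ((p (g j n) : X ≃ₗ[ℝ] X) x) +
      (((p σ' : X ≃ₗ[ℝ] X) ((p (g j n) : X ≃ₗ[ℝ] X) x) - (p (g (σ j) n) : X ≃ₗ[ℝ] X) x) +
      ((p (g (σ j) n) : X ≃ₗ[ℝ] X) x - T0 (σ j) x)) =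
      (p σ' : X ≃ₗ[ℝ] X) (T0 j x) - T0 (σ j) x := by abel
    rw [h6] at h4
    linarith
  -- signs of the copies
  have hsign : ∀ θ : ℕ → ℤˣ, ∃ R : isomGroup N, ∀ j x,
      (R : X ≃ₗ[ℝ] X) (T j x) = (((θ j : ℤˣ) : ℤ) : ℝ) • T j x := by
    intro θ
    set s : ℕ → ℤˣ := fun m => θ (Nat.unpair m).1 with hs
    have hs2 : ∀ j k, s (Nat.pair j k) = θ j := by
      intro j k
      simp [hs]
    refine ⟨ε s, fun j x => ?_⟩
    rw [hTT, ← sub_eq_zero]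
    refine hN0 _ fun δ hδ => ?_
    obtain ⟨n1, hn1⟩ := happrox j x (δ / 3) (by positivity)
    obtain ⟨n2, hn2⟩ := hsmall x (δ / 3) (by positivity)
    set n := max n1 n2 with hn
    have h1 := hn1 n (le_max_left _ _)
    have hθ : |(((θ j : ℤˣ) : ℤ) : ℝ)| = 1 := by
      rcases Int.units_eq_one_or (θ j) with h' | h' <;> rw [h'] <;> simp
    have hcomm : ε s * p (g j n) = p (g j n) * ε (fun k => s (g j n k)) := by
      have h2 := hpe (g j n) (fun k => s (g j n k))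
      have h2' : (fun k => s (g j n ((g j n)⁻¹ k))) = s := by
        funext k; simp
      rw [h2'] at h2
      rw [← h2]
      group
    have hconst : ∀ (u : ℤˣ) (z : X), (ε (fun _ => u) : X ≃ₗ[ℝ] X) z = ((u : ℤ) : ℝ) • z := by
      intro u z
      rcases Int.units_eq_one_or u with h' | h'
      · rw [h']
        have h2 : (fun _ => 1 : ℕ → ℤˣ) = 1 := rfl
        rw [h2, map_one, isom_one]
        simp
      · rw [h', hε]
        simp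
    have hsplit : (fun k => s (g j n k)) = (fun _ => θ j) * fun k => (θ j)⁻¹ * s (g j n k) := by
      funext k
      exact (mul_inv_cancel_left (θ j) (s (g j n k))).symm
    have h2 := hn2 n (le_max_right _ _) (fun k => (θ j)⁻¹ * s (g j n k)) fun k hk => by
      show (θ j)⁻¹ * s (g j n k) = 1
      rw [hg j n k hk, hs2, inv_mul_cancel]
    have h3 : (ε s : X ≃ₗ[ℝ] X) ((p (g j n) : X ≃ₗ[ℝ] X) x) = (((θ j : ℤˣ) : ℤ) : ℝ) •
        (p (g j n) : X ≃ₗ[ℝ] X) ((ε (fun k => (θ j)⁻¹ * s (g j n k)) : X ≃ₗ[ℝ] X) x) := by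
      rw [← isom_mul, hcomm, isom_mul, hsplit, map_mul, isom_mul, hconst, map_smul]
    have h4 : N ((ε s : X ≃ₗ[ℝ] X) ((p (g j n) : X ≃ₗ[ℝ] X) x) - (((θ j : ℤˣ) : ℤ) : ℝ) •
        (p (g j n) : X ≃ₗ[ℝ] X) x) ≤ δ / 3 := by
      rw [h3, ← smul_sub, map_smul_eq_mul, Real.norm_eq_abs, hθ, one_mul, isom_dist]
      exact h2
    have h5 : N ((ε s : X ≃ₗ[ℝ] X) (T0 j x) - (ε s : X ≃ₗ[ℝ] X) ((p (g j n) : X ≃ₗ[ℝ] X) x)) ≤
        δ / 3 := by
      rw [isom_dist]; exact h1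
    have h6 : N ((((θ j : ℤˣ) : ℤ) : ℝ) • (p (g j n) : X ≃ₗ[ℝ] X) x -
        (((θ j : ℤˣ) : ℤ) : ℝ) • T0 j x) ≤ δ / 3 := by
      rw [← smul_sub, map_smul_eq_mul, Real.norm_eq_abs, hθ, one_mul, map_sub_rev]
      exact h1
    have h7 := map_add_le_add N
      ((ε s : X ≃ₗ[ℝ] X) (T0 j x) - (ε s : X ≃ₗ[ℝ] X) ((p (g j n) : X ≃ₗ[ℝ] X) x))
      (((ε s : X ≃ₗ[ℝ] X) ((p (g j n) : X ≃ₗ[ℝ] X) x) - (((θ j : ℤˣ) : ℤ) : ℝ) •
        (p (g j n) : X ≃ₗ[ℝ] X) x) + ((((θ j : ℤˣ) : ℤ) : ℝ) • (p (g j n) : X ≃ₗ[ℝ] X) x -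
        (((θ j : ℤˣ) : ℤ) : ℝ) • T0 j x))
    have h8 := map_add_le_add N
      ((ε s : X ≃ₗ[ℝ] X) ((p (g j n) : X ≃ₗ[ℝ] X) x) - (((θ j : ℤˣ) : ℤ) : ℝ) •
        (p (g j n) : X ≃ₗ[ℝ] X) x) ((((θ j : ℤˣ) : ℤ) : ℝ) • (p (g j n) : X ≃ₗ[ℝ] X) x -
        (((θ j : ℤˣ) : ℤ) : ℝ) • T0 j x)
    have h9 : ((ε s : X ≃ₗ[ℝ] X) (T0 j x) - (ε s : X ≃ₗ[ℝ] X) ((p (g j n) : X ≃ₗ[ℝ] X) x)) +
      (((ε s : X ≃ₗ[ℝ] X) ((p (g j n) : X ≃ₗ[ℝ] X) x) - (((θ j : ℤˣ) : ℤ) : ℝ) •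
        (p (g j n) : X ≃ₗ[ℝ] X) x) + ((((θ j : ℤˣ) : ℤ) : ℝ) • (p (g j n) : X ≃ₗ[ℝ] X) x -
        (((θ j : ℤˣ) : ℤ) : ℝ) • T0 j x)) =
      (ε s : X ≃ₗ[ℝ] X) (T0 j x) - (((θ j : ℤˣ) : ℤ) : ℝ) • T0 j x := by abel
    rw [h9] at h7
    linarith
  -- the conclusion
  refine no_symmetric_embeddings h hX hc hC hN hcC hU hF T (fun j x => by rw [hTT, hT0N]) ?_
  intro x r ι θ a hι hθ
  obtain ⟨σ, hσ⟩ := exists_perm_extend {k | k < r} (fun k => if hk : k < r then ι ⟨k, hk⟩ else 0)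
    (by
      intro k hk k' hk' hkk
      simp only [Set.mem_ofPred_eq] at hk hk'
      simp only [dif_pos hk, dif_pos hk'] at hkk
      have := hι hkk
      simpa using this)
    ((Set.finite_lt_nat r).infinite_compl) (((Set.finite_lt_nat r).image _).infinite_compl)
  obtain ⟨R1, hR1⟩ := hperm σ
  obtain ⟨R2, hR2⟩ := hsign fun m => if ∃ i, ι i = m ∧ θ i = -1 then -1 else 1
  have h1 : ∑ i, (θ i * a i) • T (ι i) x =
      (R2 : X ≃ₗ[ℝ] X) ((R1 : X ≃ₗ[ℝ] X) (∑ i : Fin r, a i • T i x)) := by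
    rw [map_sum, map_sum]
    refine Finset.sum_congr rfl fun i _ => ?_
    rw [map_smul, map_smul, hR1, hσ i i.2]
    simp only [dif_pos i.2, Fin.eta]
    rw [hR2, smul_smul]
    congr 1
    rw [mul_comm]
    congr 1
    rcases hθ i with h' | h'
    · rw [if_neg, h']
      · simp
      · rintro ⟨i', hi', hi''⟩
        rw [hι hi', h'] at hi''
        norm_num at hi''
    · rw [if_pos ⟨i, rfl, h'⟩, h']
      simp
  rw [h1, isom_apply, isom_apply]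

end Pool.Agent.Comb7f333f
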