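import Mathlib

set_option autoImplicit false

/-!
Averages over the choices of signs; Khintchine's inequality from the fourth moment.
-/

namespace Pool.Agent.Comb7f333f

section Ravg

variable {V : Type*} [AddCommGroup V] [Module ℝ V]

/-- The average of `f (s ± a 0 ± ... ± a (J-1))` over all the choices of signs. -/
noncomputable def ravg : (J : ℕ) → (Fin J → V) → (V → ℝ) → V → ℝ
  | 0, _, f, s => f s
  | J + 1, a, f, s => (ravg J (fun i => a i.succ) f (s + a 0) +
      ravg J (fun i => a i.succ) f (s - a 0)) / 2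

omit [Module ℝ V] in
theorem ravg_zero (a : Fin 0 → V) (f : V → ℝ) (s : V) : ravg 0 a f s = f s := rfl

omit [Module ℝ V] in
theorem ravg_succ (J : ℕ) (a : Fin (J + 1) → V) (f : V → ℝ) (s : V) : ravg (J + 1) a f s =
    (ravg J (fun i => a i.succ) f (s + a 0) + ravg J (fun i => a i.succ) f (s - a 0)) / 2 := rfl

/-- Some choice of signs is at least the average. -/
theorem exists_sign_ge (J : ℕ) (a : Fin J → V) (f : V → ℝ) (s : V) :
    ∃ θ : Fin J → ℝ, (∀ i, θ i = 1 ∨ θ i = -1) ∧ ravg J a f s ≤ f (s + ∑ i, θ i • a i) := by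
  induction J generalizing s with
  | zero => exact ⟨fun _ => 1, fun _ => Or.inl rfl, by simp [ravg_zero]⟩
  | succ J ih =>
    obtain ⟨θ1, h1, h1'⟩ := ih (fun i => a i.succ) (s + a 0)
    obtain ⟨θ2, h2, h2'⟩ := ih (fun i => a i.succ) (s - a 0)
    rw [ravg_succ]
    by_cases hle : ravg J (fun i => a i.succ) f (s - a 0) ≤ ravg J (fun i => a i.succ) f (s + a 0)
    · refine ⟨Fin.cons 1 θ1, fun i => ?_, ?_⟩
      · refine Fin.cases (Or.inl rfl) (fun i => ?_) i
        simpa using h1 i
      · rw [Fin.sum_univ_succ]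
        simp only [Fin.cons_zero, Fin.cons_succ, one_smul]
        rw [← add_assoc]
        linarith
    · refine ⟨Fin.cons (-1) θ2, fun i => ?_, ?_⟩
      · refine Fin.cases (Or.inr rfl) (fun i => ?_) i
        simpa using h2 i
      · rw [Fin.sum_univ_succ]
        simp only [Fin.cons_zero, Fin.cons_succ, neg_smul, one_smul]
        rw [← add_assoc, ← sub_eq_add_neg]
        linarith

theorem ravg_mono (J : ℕ) (a : Fin J → V) (f g : V → ℝ) (hfg : ∀ v, f v ≤ g v) (s : V) :
    ravg J a f s ≤ ravg J a g s := by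
  induction J generalizing s with
  | zero => exact hfg s
  | succ J ih =>
    rw [ravg_succ, ravg_succ]
    linarith [ih (fun i => a i.succ) (s + a 0), ih (fun i => a i.succ) (s - a 0)]

theorem ravg_sum {κ : Type*} (D : Finset κ) (g : κ → V → ℝ) (J : ℕ) (a : Fin J → V) (s : V) :
    ravg J a (fun v => ∑ k ∈ D, g k v) s = ∑ k ∈ D, ravg J a (g k) s := by
  induction J generalizing s with
  | zero => rfl
  | succ J ih =>
    rw [ravg_succ, ih, ih, ← Finset.sum_add_distrib, Finset.sum_div]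
    rfl

theorem ravg_comp {W : Type*} [AddCommGroup W] [Module ℝ W] (φ : V →ₗ[ℝ] W) (g : W → ℝ)
    (J : ℕ) (a : Fin J → V) (s : V) :
    ravg J a (fun v => g (φ v)) s = ravg J (fun i => φ (a i)) g (φ s) := by
  induction J generalizing s with
  | zero => rfl
  | succ J ih =>
    rw [ravg_succ, ravg_succ, ih, ih, map_add, map_sub]

end Ravg

theorem abs_le_ravg_abs (J : ℕ) (a : Fin J → ℝ) (s : ℝ) : |s| ≤ ravg J a (fun t => |t|) s := by
  induction J generalizing s with
  | zero => exact le_rfl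
  | succ J ih =>
    rw [ravg_succ]
    have h1 := ih (fun i => a i.succ) (s + a 0)
    have h2 := ih (fun i => a i.succ) (s - a 0)
    have h3 : |2 * s| ≤ |s + a 0| + |s - a 0| := by
      have := abs_add_le (s + a 0) (s - a 0)
      rwa [show s + a 0 + (s - a 0) = 2 * s by ring] at this
    rw [abs_mul, abs_two] at h3
    linarith

theorem abs_coeff_le_ravg_abs (J : ℕ) (a : Fin J → ℝ) (s : ℝ) (j : Fin J) :
    |a j| ≤ ravg J a (fun t => |t|) s := by
  induction J generalizing s with
  | zero => exact j.elim0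
  | succ J ih =>
    rw [ravg_succ]
    refine Fin.cases ?_ (fun i => ?_) j
    · have h1 := abs_le_ravg_abs J (fun i => a i.succ) (s + a 0)
      have h2 := abs_le_ravg_abs J (fun i => a i.succ) (s - a 0)
      have h3 : |2 * a 0| ≤ |s + a 0| + |s - a 0| := by
        have := abs_sub (s + a 0) (s - a 0)
        rwa [show s + a 0 - (s - a 0) = 2 * a 0 by ring] at this
      rw [abs_mul, abs_two] at h3
      linarith
    · have h1 := ih (fun i => a i.succ) (s + a 0) i
      have h2 := ih (fun i => a i.succ) (s - a 0) i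
      linarith

theorem ravg_sq (J : ℕ) (a : Fin J → ℝ) (s : ℝ) :
    ravg J a (fun t => t ^ 2) s = s ^ 2 + ∑ i, a i ^ 2 := by
  induction J generalizing s with
  | zero => simp [ravg_zero]
  | succ J ih =>
    rw [ravg_succ, ih, ih, Fin.sum_univ_succ]
    ring

theorem ravg_four (J : ℕ) (a : Fin J → ℝ) (s : ℝ) :
    ravg J a (fun t => t ^ 4) s ≤ s ^ 4 + 6 * s ^ 2 * ∑ i, a i ^ 2 + 3 * (∑ i, a i ^ 2) ^ 2 := by
  induction J generalizing s with
  | zero => simp [ravg_zero]
  | succ J ih =>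
    rw [ravg_succ, Fin.sum_univ_succ]
    have h1 := ih (fun i => a i.succ) (s + a 0)
    have h2 := ih (fun i => a i.succ) (s - a 0)
    set Q := ∑ i : Fin J, a i.succ ^ 2 with hQ
    have h3 : 0 ≤ a 0 ^ 4 := by positivity
    nlinarith

theorem ravg_const_mul_sub (J : ℕ) (a : Fin J → ℝ) (c d s : ℝ) (f g : ℝ → ℝ) :
    ravg J a (fun t => c * f t - d * g t) s = c * ravg J a f s - d * ravg J a g s := by
  induction J generalizing s with
  | zero => rfl
  | succ J ih =>
    rw [ravg_succ, ravg_succ, ravg_succ, ih, ih]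
    ring

/-- Khintchine's inequality. -/
theorem khintchine (J : ℕ) (a : Fin J → ℝ) :
    Real.sqrt ((∑ i, a i ^ 2) / 3) ≤ ravg J a (fun t => |t|) 0 := by
  set Q := ∑ i, a i ^ 2 with hQ
  have hQ0 : 0 ≤ Q := Finset.sum_nonneg fun i _ => sq_nonneg _
  rcases hQ0.eq_or_lt with h0 | hpos
  · rw [← h0, zero_div, Real.sqrt_zero]
    have := abs_le_ravg_abs J a 0
    rwa [abs_zero] at this
  · set u := Real.sqrt (Q / 3) with hu
    have hu0 : 0 < u := Real.sqrt_pos.mpr (by positivity)
    have hu2 : u ^ 2 = Q / 3 := Real.sq_sqrt (by positivity)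
    -- `s = 3 u`
    have hpt : ∀ t : ℝ, (1 / (2 * u)) * t ^ 2 - (1 / (54 * u ^ 3)) * t ^ 4 ≤ |t| := by
      intro t
      have h1 : t ^ 2 = |t| ^ 2 := (sq_abs t).symm
      have h2 : t ^ 4 = |t| ^ 4 := by
        rw [show (4 : ℕ) = 2 * 2 by norm_num, pow_mul, pow_mul, h1]
      rw [h1, h2]
      set x := |t| with hx
      have hx0 : 0 ≤ x := abs_nonneg t
      have h3 : x - ((1 / (2 * u)) * x ^ 2 - (1 / (54 * u ^ 3)) * x ^ 4) =
          x * (x - 3 * u) ^ 2 * (x + 6 * u) / (54 * u ^ 3) := by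
        field_simp
        ring
      have h4 : 0 ≤ x * (x - 3 * u) ^ 2 * (x + 6 * u) / (54 * u ^ 3) := by positivity
      linarith
    have h1 := ravg_mono J a _ _ hpt 0
    rw [ravg_const_mul_sub J a _ _ 0 (fun t => t ^ 2) (fun t => t ^ 4), ravg_sq] at h1
    have h2 := ravg_four J a 0
    rw [← hQ] at h1 h2
    have h3 : (1 / (54 * u ^ 3)) * ravg J a (fun t => t ^ 4) 0 ≤ (1 / (54 * u ^ 3)) * (3 * Q ^ 2) :=
      mul_le_mul_of_nonneg_left (by simpa using h2) (by positivity)
    have h4 : Q = 3 * u ^ 2 := by rw [hu2]; ring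
    have h5 : (1 / (2 * u)) * (0 ^ 2 + Q) - (1 / (54 * u ^ 3)) * (3 * Q ^ 2) = u := by
      rw [h4]
      field_simp
      ring
    linarith

theorem khintchine_l1 (J : ℕ) (a : Fin J → ℝ) :
    (∑ i, |a i|) / Real.sqrt (3 * J) ≤ ravg J a (fun t => |t|) 0 := by
  refine le_trans ?_ (khintchine J a)
  rcases Nat.eq_zero_or_pos J with rfl | hJ
  · simp
  · have hJ' : (0 : ℝ) < J := by exact_mod_cast hJ
    rw [div_le_iff₀ (Real.sqrt_pos.mpr (by positivity)), ← Real.sqrt_mul (by positivity)]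
    apply Real.le_sqrt_of_sq_le
    have h1 := sq_sum_le_card_mul_sum_sq (s := (Finset.univ : Finset (Fin J)))
      (f := fun i => |a i|)
    simp only [sq_abs, Finset.card_univ, Fintype.card_fin] at h1
    calc (∑ i, |a i|) ^ 2 ≤ J * ∑ i, a i ^ 2 := h1
      _ = (∑ i, a i ^ 2) / 3 * (3 * J) := by ring

end Pool.Agent.Comb7f333f
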