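import Pool.Agent.Lib.MP_7f333f_an.Neg.Coord
import Pool.Agent.Lib.MP_7f333f_an.Neg.Signs

set_option autoImplicit false
set_option linter.unusedSectionVars false

/-!
Sequences in a combinatorial space which are symmetric for an equivalent norm are equivalent to
the basis of `c₀`.
-/

namespace Pool.Agent.Comb7f333f

open Filter Topology

/-- Finite unions of sets which belong far away to a fixed section of the family belong to the
family. -/
def FarUnions (𝓕 : Set (Finset ℕ)) : Prop :=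
  ∀ m r : ℕ, ∃ M : ℕ, ∀ A : Fin r → Finset ℕ,
    (∀ i, insert m (A i) ∈ 𝓕 ∧ ∀ k ∈ A i, M < k) → Finset.univ.biUnion A ∈ 𝓕

/-- The norm `N` of finite combinations of the terms of the sequence does not depend on the signs
of the coefficients and on the choice of the terms. -/
def Sym {X : Type*} [AddCommGroup X] [Module ℝ X] (N : Seminorm ℝ X) (y : ℕ → X) : Prop :=
  ∀ (r : ℕ) (ι : Fin r → ℕ) (θ a : Fin r → ℝ), Function.Injective ι →
    (∀ i, θ i = 1 ∨ θ i = -1) → N (∑ i, (θ i * a i) • y (ι i)) = N (∑ i : Fin r, a i • y i)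

theorem exists_sign_mul (x : ℝ) : ∃ θ : ℝ, (θ = 1 ∨ θ = -1) ∧ θ * x = |x| := by
  rcases le_total 0 x with hx | hx
  · exact ⟨1, Or.inl rfl, by rw [one_mul, abs_of_nonneg hx]⟩
  · exact ⟨-1, Or.inr rfl, by rw [abs_of_nonpos hx]; ring⟩

section Seq

variable {𝓕 : Set (Finset ℕ)} {X : Type*} [NormedAddCommGroup X] [NormedSpace ℝ X] {e : ℕ → X}

variable (h : IsRegular 𝓕) (hX : IsCombSpace 𝓕 e) {N : Seminorm ℝ X} {c C : ℝ} (hc : 0 < c)
  (hN : ∀ x, c * ‖x‖ ≤ N x ∧ N x ≤ C * ‖x‖)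

include hc hN in
theorem nonneg_of_equiv (x : X) (hx : x ≠ 0) : 0 ≤ C := by
  have h1 := hN x
  have h2 : 0 < ‖x‖ := norm_pos_iff.mpr hx
  by_contra hcon
  push Not at hcon
  nlinarith

include h hX hc hN

/-- The averages of a bounded symmetric sequence tend to zero. -/
theorem Sym.cesaro {y : ℕ → X} (hy : Sym N y) (B : ℝ) (hB : ∀ j, ‖y j‖ ≤ B) (ε : ℝ)
    (hε : 0 < ε) : ∃ L : ℕ, 0 < L ∧ N (∑ i : Fin L, y i) ≤ ε * L := by
  classical
  by_contra hcon
  push Not at hcon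
  have hC : 0 < C := by
    by_contra hC
    push Not at hC
    have h1 := hcon 1 one_pos
    have h2 := (hN (∑ i : Fin 1, y i)).2
    have h3 : C * ‖∑ i : Fin 1, y i‖ ≤ 0 := mul_nonpos_of_nonpos_of_nonneg hC (norm_nonneg _)
    push_cast at h1
    linarith
  have key : ∀ (n : ℕ) (a : Fin (n + 1) → ℝ), ε * ∑ i, |a i| ≤ N (∑ i : Fin (n + 1), a i • y i) := by
    intro n a
    choose θ hθ1 hθ2 using fun i => exists_sign_mul (a i)
    have h1 : ∀ t : Fin (n + 1), N (∑ i : Fin (n + 1), |a i| • y ((i + t : Fin (n + 1)) : ℕ)) =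
        N (∑ i : Fin (n + 1), a i • y i) := by
      intro t
      rw [← hy (n + 1) (fun i => ((i + t : Fin (n + 1)) : ℕ)) θ a
        (fun i j hij => add_right_cancel (Fin.ext hij)) hθ1]
      congr 1
      exact Finset.sum_congr rfl fun i _ => by rw [hθ2]
    have h2 : N (∑ t : Fin (n + 1), ∑ i : Fin (n + 1), |a i| • y ((i + t : Fin (n + 1)) : ℕ)) ≤
        ((n + 1 : ℕ) : ℝ) * N (∑ i : Fin (n + 1), a i • y i) := by
      have h3 : ∀ s : Finset (Fin (n + 1)), N (∑ t ∈ s, ∑ i : Fin (n + 1),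
          |a i| • y ((i + t : Fin (n + 1)) : ℕ)) ≤ ∑ _t ∈ s, N (∑ i : Fin (n + 1), a i • y i) := by
        intro s
        induction s using Finset.induction_on with
        | empty => simp
        | insert t s ht ih =>
          rw [Finset.sum_insert ht, Finset.sum_insert ht]
          refine (map_add_le_add N _ _).trans (add_le_add (h1 t).le ih)
      refine (h3 Finset.univ).trans ?_
      rw [Finset.sum_const, Finset.card_univ, Fintype.card_fin, nsmul_eq_mul]
    have h4 : ∑ t : Fin (n + 1), ∑ i : Fin (n + 1), |a i| • y ((i + t : Fin (n + 1)) : ℕ) =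
        (∑ i, |a i|) • ∑ i : Fin (n + 1), y i := by
      rw [Finset.sum_comm, Finset.sum_smul]
      refine Finset.sum_congr rfl fun i _ => ?_
      rw [← Finset.smul_sum]
      congr 1
      exact Equiv.sum_comp (Equiv.addLeft i) fun j : Fin (n + 1) => y j
    rw [h4, map_smul_eq_mul, Real.norm_eq_abs,
      abs_of_nonneg (Finset.sum_nonneg fun i _ => abs_nonneg _)] at h2
    have h5 := hcon (n + 1) (Nat.succ_pos n)
    have h6 : (0 : ℝ) < ((n + 1 : ℕ) : ℝ) := by positivity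
    have h7 : (∑ i, |a i|) * (ε * ((n + 1 : ℕ) : ℝ)) ≤
        (∑ i, |a i|) * N (∑ i : Fin (n + 1), y i) :=
      mul_le_mul_of_nonneg_left h5.le (Finset.sum_nonneg fun i _ => abs_nonneg _)
    nlinarith
  refine noL1 h hX y B hB (ε / C) (by positivity) fun a => ?_
  obtain ⟨n, hn⟩ : ∃ n, a.support ⊆ Finset.range (n + 1) := ⟨a.support.sup id, fun x hx => by
    rw [Finset.mem_range]
    exact Nat.lt_succ_of_le (Finset.le_sup (f := id) hx)⟩
  have h1 := key n (fun i => a i)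
  have h2 : Finsupp.linearCombination ℝ y a = ∑ i : Fin (n + 1), a i • y i := by
    rw [Finsupp.linearCombination_apply, Finsupp.sum,
      Fin.sum_univ_eq_sum_range (fun i => a i • y i) (n + 1)]
    refine Finset.sum_subset hn fun i _ hi => ?_
    rw [Finsupp.notMem_support_iff.mp hi, zero_smul]
  have h3 : l1 a = ∑ i : Fin (n + 1), |a i| := by
    rw [l1_eq_of_subset a _ hn, Fin.sum_univ_eq_sum_range (fun i => |a i|) (n + 1)]
  rw [h2, h3, div_mul_eq_mul_div, div_le_iff₀ hC]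
  have h4 := (hN (∑ i : Fin (n + 1), a i • y i)).2
  linarith

/-- The sums of a symmetric sequence, with signs, over any terms. -/
theorem Sym.sum_eq {y : ℕ → X} (hy : Sym N y) (L : ℕ) (ι : Fin L → ℕ)
    (hι : Function.Injective ι) (θ : Fin L → ℝ) (hθ : ∀ i, θ i = 1 ∨ θ i = -1) :
    c * ‖∑ i, θ i • y (ι i)‖ ≤ N (∑ i : Fin L, y i) := by
  have h1 := hy L ι θ (fun _ => 1) hι hθ
  simp only [mul_one, one_smul] at h1
  rw [← h1]
  exact (hN _).1

/-- The coordinates of a bounded symmetric sequence tend to zero. -/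
theorem Sym.coord_tendsto {y : ℕ → X} (hy : Sym N y) (B : ℝ) (hB : ∀ j, ‖y j‖ ≤ B) (k : ℕ) :
    Tendsto (fun j => ef e k (y j)) atTop (𝓝 0) := by
  by_contra hcon
  rw [Metric.tendsto_atTop] at hcon
  push Not at hcon
  obtain ⟨δ, hδ, hf⟩ := hcon
  simp only [dist_zero_right, Real.norm_eq_abs] at hf
  obtain ⟨φ, hφ, hφ2⟩ := Filter.extraction_of_frequently_atTop
    (Filter.frequently_atTop.mpr hf)
  obtain ⟨L, hL, hL2⟩ := Sym.cesaro h hX hc hN hy B hB (c * δ / 2) (by positivity)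
  choose θ hθ1 hθ2 using fun i : Fin L => exists_sign_mul (ef e k (y (φ i)))
  have h1 := Sym.sum_eq h hX hc hN hy L (fun i => φ i)
    (fun i j hij => Fin.ext (hφ.injective hij)) θ hθ1
  have h2 : L * δ ≤ ‖∑ i, θ i • y (φ i)‖ := by
    refine le_trans ?_ (abs_ef_le h hX k _)
    refine le_trans ?_ (le_abs_self _)
    rw [map_sum]
    have h3 : ∀ i ∈ (Finset.univ : Finset (Fin L)), δ ≤ ef e k (θ i • y (φ i)) := by
      intro i _
      rw [map_smul, smul_eq_mul, hθ2]
      exact hφ2 i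
    have h4 := Finset.card_nsmul_le_sum _ _ _ h3
    rwa [Finset.card_univ, Fintype.card_fin, nsmul_eq_mul] at h4
  have hL' : (0 : ℝ) < L := by exact_mod_cast hL
  have h3 : c * (L * δ) ≤ c * ‖∑ i, θ i • y (φ i)‖ := mul_le_mul_of_nonneg_left h2 hc.le
  have h4 : 0 < c * δ * L := by positivity
  nlinarith

/-- The section sums of a bounded symmetric sequence tend to zero. -/
theorem Sym.section_tendsto (hF : FarUnions 𝓕) {y : ℕ → X} (hy : Sym N y) (B : ℝ)
    (hB : ∀ j, ‖y j‖ ≤ B) (m : ℕ) (δ : ℝ) (hδ : 0 < δ) :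
    ∀ᶠ j in atTop, ∀ G ∈ sec 𝓕 {m}, ∑ k ∈ G, |ef e k (y j)| ≤ δ := by
  classical
  by_contra hcon
  have hcon' : ∃ᶠ j in atTop, ∃ G ∈ sec 𝓕 {m}, δ < ∑ k ∈ G, |ef e k (y j)| := by
    rw [Filter.not_eventually] at hcon
    refine hcon.mono fun j hj => ?_
    push Not at hj
    exact hj
  obtain ⟨L, hL, hL2⟩ := Sym.cesaro h hX hc hN hy B hB (c * δ / 4) (by positivity)
  obtain ⟨M, hM⟩ := hF m L
  -- far parts
  have hstep : ∀ T j0 : ℕ, ∃ j, j0 < j ∧ ∃ G ∈ sec 𝓕 {m}, (∀ k ∈ G, T < k) ∧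
      δ / 2 ≤ ∑ k ∈ G, |ef e k (y j)| := by
    intro T j0
    have h1 : Tendsto (fun j => ∑ k ∈ Finset.range (T + 1), |ef e k (y j)|) atTop (𝓝 0) := by
      have h2 : Tendsto (fun j => ∑ k ∈ Finset.range (T + 1), |ef e k (y j)|) atTop
          (𝓝 (∑ _k ∈ Finset.range (T + 1), (0 : ℝ))) := by
        refine tendsto_finsetSum _ fun k _ => ?_
        have := (Sym.coord_tendsto h hX hc hN hy B hB k).abs
        rwa [abs_zero] at this
      simpa using h2
    obtain ⟨j, ⟨G, hG, hGδ⟩, hj1, hj2⟩ := (hcon'.and_eventually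
      ((h1.eventually_lt_const (show 0 < δ / 2 by positivity)).and
      (eventually_gt_atTop j0))).exists
    refine ⟨j, hj2, G.filter (T < ·), ⟨fun k hk => hG.1 k (Finset.mem_filter.mp hk).1,
      h.hereditary _ hG.2 _ (Finset.union_subset_union_right (Finset.filter_subset _ _))⟩,
      fun k hk => (Finset.mem_filter.mp hk).2, ?_⟩
    have h3 := Finset.sum_filter_add_sum_filter_not G (T < ·) fun k => |ef e k (y j)|
    have h4 : ∑ k ∈ G.filter (fun k => ¬ T < k), |ef e k (y j)| ≤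
        ∑ k ∈ Finset.range (T + 1), |ef e k (y j)| := by
      refine Finset.sum_le_sum_of_subset_of_nonneg (fun k hk => ?_) fun _ _ _ => abs_nonneg _
      rw [Finset.mem_filter] at hk
      rw [Finset.mem_range]
      omega
    linarith
  choose J hJ G hG1 hG2 hG3 using hstep
  let st : ℕ → ℕ × ℕ := fun l => Nat.rec (M, 0)
    (fun _ p => (max (p.1 + 1) ((G p.1 p.2).sup id), J p.1 p.2)) l
  have hst0 : st 0 = (M, 0) := rfl
  have hst : ∀ l, st (l + 1) = (max ((st l).1 + 1) ((G (st l).1 (st l).2).sup id),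
    J (st l).1 (st l).2) := fun l => rfl
  clear_value st
  set T : ℕ → ℕ := fun l => (st l).1 with hT
  set φ : ℕ → ℕ := fun l => J (st l).1 (st l).2 with hφ
  set Γ : ℕ → Finset ℕ := fun l => G (st l).1 (st l).2 with hΓ
  have hT0 : T 0 = M := by rw [hT]; simp only [hst0]
  have hTs : ∀ l, T (l + 1) = max (T l + 1) ((Γ l).sup id) := fun l => by
    rw [hT]; simp only [hst]; rfl
  have hTmono : StrictMono T := strictMono_nat_of_lt_succ fun l => by
    rw [hTs]; exact lt_of_lt_of_le (Nat.lt_succ_self _) (le_max_left _ _)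
  have hφs : ∀ l, (st (l + 1)).2 = φ l := fun l => by rw [hst]
  have hφmono : StrictMono φ := strictMono_nat_of_lt_succ fun l => by
    have h1 := hJ (st (l + 1)).1 (st (l + 1)).2
    rw [hφs] at h1
    have h2 : φ (l + 1) = J (st (l + 1)).1 (φ l) := by
      show J (st (l + 1)).1 (st (l + 1)).2 = _
      rw [hφs]
    rw [h2]
    exact h1
  have hΓ1 : ∀ l, Γ l ∈ sec 𝓕 {m} := fun l => hG1 _ _
  have hΓ2 : ∀ l, ∀ k ∈ Γ l, T l < k ∧ k ≤ T (l + 1) := by
    intro l k hk
    refine ⟨hG2 _ _ k hk, ?_⟩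
    rw [hTs]
    exact (Finset.le_sup (f := id) hk).trans (le_max_right _ _)
  have hΓ3 : ∀ l, δ / 2 ≤ ∑ k ∈ Γ l, |ef e k (y (φ l))| := fun l => hG3 _ _
  -- the union
  set D : Finset ℕ := Finset.univ.biUnion fun i : Fin L => Γ i with hD
  have hD𝓕 : D ∈ 𝓕 := hM _ fun i => ⟨by
    have := (hΓ1 i).2
    rwa [Finset.insert_eq], fun k hk => by
    have h1 := (hΓ2 i k hk).1
    have h2 := hTmono.monotone (Nat.zero_le (i : ℕ))
    rw [hT0] at h2
    omega⟩
  have hdisj : ∀ i ∈ (Finset.univ : Finset (Fin L)), ∀ j ∈ (Finset.univ : Finset (Fin L)),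
      i ≠ j → Disjoint (Γ i) (Γ j) := by
    intro i _ j _ hij
    rw [Finset.disjoint_left]
    intro k hk hk'
    have h1 := hΓ2 i k hk
    have h2 := hΓ2 j k hk'
    rcases lt_or_gt_of_ne (fun h' => hij (Fin.ext h') : (i : ℕ) ≠ j) with hlt | hlt
    · have := hTmono.monotone (show (i : ℕ) + 1 ≤ j from hlt)
      omega
    · have := hTmono.monotone (show (j : ℕ) + 1 ≤ i from hlt)
      omega
  -- the signs
  obtain ⟨θ, hθ1, hθ2⟩ := exists_sign_ge L (fun i : Fin L => y (φ i))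
    (fun v => ∑ k ∈ D, |ef e k v|) 0
  rw [zero_add] at hθ2
  have h1 : L * (δ / 2) ≤ ravg L (fun i : Fin L => y (φ i)) (fun v => ∑ k ∈ D, |ef e k v|) 0 := by
    rw [ravg_sum D (fun k v => |ef e k v|)]
    have h2 : ∀ i : Fin L, ∀ k ∈ Γ i, |ef e k (y (φ i))| ≤
        ravg L (fun i : Fin L => y (φ i)) (fun v => |ef e k v|) 0 := by
      intro i k _
      have h3 := ravg_comp (ef e k : X →ₗ[ℝ] ℝ) (fun t => |t|) L (fun i : Fin L => y (φ i)) 0
      simp only [ContinuousLinearMap.coe_coe] at h3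
      rw [h3]
      exact abs_coeff_le_ravg_abs L (fun i : Fin L => ef e k (y (φ i))) _ i
    rw [hD, Finset.sum_biUnion hdisj]
    have h3 : ∀ i ∈ (Finset.univ : Finset (Fin L)), δ / 2 ≤ ∑ k ∈ Γ i,
        ravg L (fun i : Fin L => y (φ i)) (fun v => |ef e k v|) 0 := fun i _ =>
      (hΓ3 i).trans (Finset.sum_le_sum (h2 i))
    have h4 := Finset.card_nsmul_le_sum _ _ _ h3
    rwa [Finset.card_univ, Fintype.card_fin, nsmul_eq_mul] at h4
  have h2 := sum_ef_le h hX hD𝓕 (∑ i : Fin L, θ i • y (φ i))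
  have h3 := Sym.sum_eq h hX hc hN hy L (fun i => φ i)
    (fun i j hij => Fin.ext (hφmono.injective hij)) θ hθ1
  have hL' : (0 : ℝ) < L := by exact_mod_cast hL
  have h4 : L * (δ / 2) ≤ ‖∑ i : Fin L, θ i • y (φ i)‖ := (h1.trans hθ2).trans h2
  have h5 : c * (L * (δ / 2)) ≤ c * ‖∑ i : Fin L, θ i • y (φ i)‖ :=
    mul_le_mul_of_nonneg_left h4 hc.le
  have h6 : 0 < c * δ * L := by positivity
  nlinarith

/-- The sums of a bounded symmetric sequence are bounded. -/
theorem Sym.bounded_sums (hF : FarUnions 𝓕) {y : ℕ → X} (hy : Sym N y) (B : ℝ)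
    (hB : ∀ j, ‖y j‖ ≤ B) : ∃ K : ℝ, ∀ L : ℕ, N (∑ i : Fin L, y i) ≤ K := by
  have hcoord := Sym.coord_tendsto h hX hc hN hy B hB
  obtain ⟨φ, hφ, hφ2⟩ := exists_subseq_of_good h hX y B hB (fun l => (1 / 2) ^ (l + 1))
    (fun l => by positivity) (fun l => pow_le_one₀ (by norm_num) (by norm_num)) (by
      intro M j0 l
      have h1 := Sym.section_tendsto h hX hc hN hF hy B hB M ((1 / 2) ^ (l + 1) / 2) (by positivity)
      have h2 := good_of_tendsto h hX y hcoord M ((1 / 2) ^ (l + 1)) (by positivity)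
      obtain ⟨j, hj1, hj2, hj3⟩ := (h1.and (h2.and (eventually_gt_atTop j0))).exists
      exact ⟨j, hj3, hj2 hj1⟩)
  refine ⟨|C| * (B + 3), fun L => ?_⟩
  have h1 := hy L (fun i => φ i) (fun _ => 1) (fun _ => 1)
    (fun i j hij => Fin.ext (hφ.injective hij)) (fun _ => Or.inl rfl)
  simp only [mul_one, one_smul] at h1
  rw [← h1]
  have h2 := hφ2 (Finset.range L)
  have h3 := sum_half_pow_le (Finset.range L)
  rw [← Fin.sum_univ_eq_sum_range (fun i => y (φ i)) L] at h2
  have h4 : ‖∑ i : Fin L, y (φ i)‖ ≤ B + 3 := by linarith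
  refine ((hN _).2.trans (mul_le_mul_of_nonneg_right (le_abs_self C) (norm_nonneg _))).trans ?_
  exact mul_le_mul_of_nonneg_left h4 (abs_nonneg _)

end Seq

end Pool.Agent.Comb7f333f
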