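import Mathlib

set_option autoImplicit false

/-!
Length functions on a group which receives a homomorphism from a power of a group: many elements
of the power have small images.
-/

namespace Pool.Agent.Comb7f333f

/-- Length functions such that, for every radius, countably many balls cover the group. -/
structure IsLen {G : Type*} [Group G] (d : G → ℝ) : Prop where
  one : d 1 = 0
  inv : ∀ g, d g⁻¹ = d g
  mul : ∀ g h, d (g * h) ≤ d g + d h
  sep : ∀ η : ℝ, 0 < η → ∃ g : ℕ → G, ∀ h, ∃ n, d ((g n)⁻¹ * h) < η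

open Equiv

section

variable {G : Type*} [Group G] {d : G → ℝ}

/-- A diagonal argument: on some level all the permutations have extensions with small images. -/
theorem IsLen.full (hd : IsLen d) {Λ : Type*} (B : (ℕ → Perm Λ) →* G) (η : ℝ) (hη : 0 < η) :
    ∃ n, ∀ b : Perm Λ, ∃ b' : ℕ → Perm Λ, b' n = b ∧ d (B b') < 2 * η := by
  obtain ⟨g, hg⟩ := hd.sep η hη
  by_contra hcon
  push Not at hcon
  have h1 : ∀ n, ∃ b : Perm Λ, ∀ c : ℕ → Perm Λ, c n = b → η ≤ d ((g n)⁻¹ * B c) := by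
    intro n
    by_contra hn
    push Not at hn
    obtain ⟨c1, hc1, hc1'⟩ := hn 1
    obtain ⟨b, hb⟩ := hcon n
    obtain ⟨c2, hc2, hc2'⟩ := hn b
    have h2 := hb (c1⁻¹ * c2) (by simp [hc1, hc2])
    have h3 : B (c1⁻¹ * c2) = ((g n)⁻¹ * B c1)⁻¹ * ((g n)⁻¹ * B c2) := by
      rw [map_mul, map_inv]; group
    have h4 := hd.mul (((g n)⁻¹ * B c1)⁻¹) ((g n)⁻¹ * B c2)
    rw [← h3, hd.inv] at h4
    linarith
  choose b hb using h1
  obtain ⟨n, hn⟩ := hg (B b)
  exact absurd hn (not_lt.mpr (hb n b rfl))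

open Classical in
/-- The initial segments of the characteristic function of a set. -/
noncomputable def pre (x : Set ℕ) (i : ℕ) : List Bool := (List.range i).map fun j => decide (j ∈ x)

theorem pre_length (x : Set ℕ) (i : ℕ) : (pre x i).length = i := by
  simp [pre]

theorem pre_ne {x y : Set ℕ} {j0 : ℕ} (hj0 : ¬ (j0 ∈ x ↔ j0 ∈ y)) (i i' : ℕ) (hi : j0 < i) :
    pre x i ≠ pre y i' := by
  intro heq
  have h1 : i = i' := by
    have := congrArg List.length heq
    rwa [pre_length, pre_length] at this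
  subst h1
  unfold pre at heq
  rw [List.map_inj_left] at heq
  have h2 := heq j0 (List.mem_range.mpr hi)
  exact hj0 (decide_eq_decide.mp h2)

/-- Elements of a power which are concentrated on one coordinate have small images. -/
theorem IsLen.swindle (hd : IsLen d) {H : Type*} [Group H] (A : ((List Bool ⊕ ℕ) → H) →* G)
    (η : ℝ) (hη : 0 < η)
    (hfull : ∀ b : Perm (List Bool ⊕ ℕ), ∃ β : G, d β < 2 * η ∧
      ∀ χ, β * A χ * β⁻¹ = A (fun l => χ (b⁻¹ l)))
    (l : List Bool ⊕ ℕ) (f : H) : d (A (Pi.mulSingle l f)) ≤ 12 * η := by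
  classical
  obtain ⟨g, hg⟩ := hd.sep η hη
  set S : Set ℕ → Set (List Bool ⊕ ℕ) := fun x => {l | ∃ i, l = Sum.inl (pre x i)} with hS
  set χ : Set ℕ → ((List Bool ⊕ ℕ) → H) := fun x l => if l ∈ S x then f else 1 with hχ
  choose k hk using fun x => hg (A (χ x))
  obtain ⟨x, y, hxy, hne⟩ : ∃ x y, k x = k y ∧ x ≠ y := by
    have := Function.cantor_injective k
    unfold Function.Injective at this
    push Not at this
    exact this
  set ψ : (List Bool ⊕ ℕ) → H := (χ y)⁻¹ * χ x with hψ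
  have hψ1 : ∀ l, ψ l = (if l ∈ S y then f else 1)⁻¹ * (if l ∈ S x then f else 1) := fun l => rfl
  have hψd : d (A ψ) < 2 * η := by
    have h1 : A ψ = ((g (k y))⁻¹ * A (χ y))⁻¹ * ((g (k y))⁻¹ * A (χ x)) := by
      rw [hψ, map_mul, map_inv]; group
    have h2 := hd.mul (((g (k y))⁻¹ * A (χ y))⁻¹) ((g (k y))⁻¹ * A (χ x))
    rw [← h1, hd.inv] at h2
    have h3 := hk x
    have h4 := hk y
    rw [hxy] at h3
    linarith
  obtain ⟨j0, hj0⟩ : ∃ j0, ¬ (j0 ∈ x ↔ j0 ∈ y) := by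
    by_contra hcon
    push Not at hcon
    exact hne (Set.ext hcon)
  set p : ℕ → (List Bool ⊕ ℕ) := fun i => Sum.inl (pre x (j0 + 1 + i)) with hp
  have hpx : ∀ i, p i ∈ S x := fun i => ⟨_, rfl⟩
  have hpy : ∀ i, p i ∉ S y := by
    rintro i ⟨i', hi'⟩
    exact pre_ne hj0 _ _ (by omega) (Sum.inl.inj hi')
  have hr : ∀ x i, (Sum.inr i : List Bool ⊕ ℕ) ∉ S x := by
    rintro x i ⟨i', hi'⟩
    exact absurd hi' (by simp)
  set E : ℤ → (List Bool ⊕ ℕ) := fun t => if 0 ≤ t then p t.toNat else Sum.inr (-1 - t).toNat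
    with hE
  have hE0 : ∀ t : ℤ, 0 ≤ t → E t = p t.toNat := fun t ht => by
    simp only [hE]; rw [if_pos ht]
  have hE1 : ∀ t : ℤ, t < 0 → E t = Sum.inr (-1 - t).toNat := fun t ht => by
    simp only [hE]; rw [if_neg (by omega)]
  have hEinj : Function.Injective E := by
    intro t t' htt
    rcases le_or_gt 0 t with h1 | h1 <;> rcases le_or_gt 0 t' with h2 | h2
    · rw [hE0 t h1, hE0 t' h2] at htt
      have h3 := congrArg List.length (Sum.inl.inj htt)
      rw [pre_length, pre_length] at h3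
      omega
    · rw [hE0 t h1, hE1 t' h2] at htt
      exact absurd htt (by simp [hp])
    · rw [hE1 t h1, hE0 t' h2] at htt
      exact absurd htt (by simp [hp])
    · rw [hE1 t h1, hE1 t' h2] at htt
      have h3 := Sum.inr.inj htt
      omega
  have hψE0 : ∀ t : ℤ, 0 ≤ t → ψ (E t) = f := by
    intro t ht
    rw [hE0 t ht, hψ1, if_neg (hpy _), if_pos (hpx _), inv_one, one_mul]
  have hψE1 : ∀ t : ℤ, t < 0 → ψ (E t) = 1 := by
    intro t ht
    rw [hE1 t ht, hψ1, if_neg (hr _ _), if_neg (hr _ _), inv_one, one_mul]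
  -- the shift
  set b : Perm (List Bool ⊕ ℕ) := Equiv.Perm.viaEmbedding (Equiv.addRight (1 : ℤ)) ⟨E, hEinj⟩
    with hb
  have hb1 : ∀ t, b⁻¹ (E t) = E (t - 1) := by
    intro t
    rw [Equiv.Perm.inv_eq_iff_eq]
    have := Equiv.Perm.viaEmbedding_apply (Equiv.addRight (1 : ℤ)) ⟨E, hEinj⟩ (t - 1)
    simp only [Function.Embedding.coeFn_mk, Equiv.coe_addRight, sub_add_cancel] at this
    exact this.symm
  have hb2 : ∀ l, l ∉ Set.range E → b⁻¹ l = l := by
    intro l hl
    rw [Equiv.Perm.inv_eq_iff_eq]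
    exact (Equiv.Perm.viaEmbedding_apply_of_notMem (Equiv.addRight (1 : ℤ)) ⟨E, hEinj⟩ l hl).symm
  have hkey : ψ * (fun l => ψ (b⁻¹ l))⁻¹ = Pi.mulSingle (p 0) f := by
    funext l
    rw [Pi.mul_apply, Pi.inv_apply, Pi.mulSingle_apply]
    by_cases hl : l ∈ Set.range E
    · obtain ⟨t, rfl⟩ := hl
      rw [hb1]
      rcases lt_trichotomy t 0 with ht | ht | ht
      · rw [hψE1 t ht, hψE1 (t - 1) (by omega), inv_one, mul_one, if_neg]
        intro h0
        have h1 : E t = E 0 := by rw [h0, hE0 0 le_rfl]; rfl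
        have := hEinj h1
        omega
      · subst ht
        rw [hψE0 0 le_rfl, hψE1 (0 - 1) (by omega), inv_one, mul_one, if_pos]
        rw [hE0 0 le_rfl]; rfl
      · rw [hψE0 t ht.le, hψE0 (t - 1) (by omega), mul_inv_cancel, if_neg]
        intro h0
        have h1 : E t = E 0 := by rw [h0, hE0 0 le_rfl]; rfl
        have := hEinj h1
        omega
    · rw [hb2 l hl, mul_inv_cancel, if_neg]
      intro h0
      exact hl ⟨0, by rw [h0, hE0 0 le_rfl]; rfl⟩
  obtain ⟨β, hβ, hβ2⟩ := hfull b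
  have h8 : d (A (Pi.mulSingle (p 0) f)) ≤ 8 * η := by
    have h1 : A (Pi.mulSingle (p 0) f) = A ψ * (β * A ψ * β⁻¹)⁻¹ := by
      rw [← hkey, map_mul, map_inv, hβ2]
    rw [h1]
    have h2 := hd.mul (A ψ) (β * A ψ * β⁻¹)⁻¹
    rw [hd.inv] at h2
    have h3 := hd.mul (β * A ψ) β⁻¹
    rw [hd.inv] at h3
    have h4 := hd.mul β (A ψ)
    linarith
  obtain ⟨β', hβ', hβ'2⟩ := hfull (Equiv.swap (p 0) l)
  have h1 := hβ'2 (Pi.mulSingle (p 0) f)
  have h2 : (fun l' => (Pi.mulSingle (p 0) f : (List Bool ⊕ ℕ) → H) ((Equiv.swap (p 0) l)⁻¹ l')) =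
      Pi.mulSingle l f := by
    funext l'
    rw [Pi.mulSingle_apply, Pi.mulSingle_apply]
    have h3 : ((Equiv.swap (p 0) l)⁻¹ l' = p 0) ↔ l' = l := by
      rw [Equiv.Perm.inv_eq_iff_eq, Equiv.swap_apply_left]
    by_cases h4 : l' = l
    · rw [if_pos (h3.mpr h4), if_pos h4]
    · rw [if_neg fun h' => h4 (h3.mp h'), if_neg h4]
  rw [h2] at h1
  rw [← h1]
  have h3 := hd.mul (β' * A (Pi.mulSingle (p 0) f)) β'⁻¹
  rw [hd.inv] at h3
  have h4 := hd.mul β' (A (Pi.mulSingle (p 0) f))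
  linarith

end

end Pool.Agent.Comb7f333f
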