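import Pool.Agent.Lib.MP_7f333f_an.Neg.NoHom

set_option autoImplicit false

/-!
The centraliser of a fixed point free involution of the integers is the group of the signed
permutations; its only central involution is the given one.
-/

namespace Pool.Agent.Comb7f333f

open Equiv

section Involution

variable {τ : Perm ℕ} (hτ : ∀ n, τ n ≠ n) (hττ : ∀ n, τ (τ n) = n)

include hτ hττ

/-- Coordinates for a fixed point free involution. -/
theorem exists_coord : ∃ E : ℕ × Bool ≃ ℕ, ∀ k b, τ (E (k, b)) = E (k, !b) := by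
  classical
  set S : Set ℕ := {n | n < τ n} with hS
  have hinf : S.Infinite := by
    intro hfin
    have h1 : (Set.univ : Set ℕ) ⊆ S ∪ τ '' S := by
      intro n _
      rcases lt_or_gt_of_ne (hτ n) with h' | h'
      · right
        exact ⟨τ n, by show τ n < τ (τ n); rw [hττ]; exact h', hττ n⟩
      · left; exact h'
    exact Set.infinite_univ ((hfin.union (hfin.image τ)).subset h1)
  have : Infinite S := hinf.to_subtype
  obtain ⟨q⟩ : Nonempty (ℕ ≃ S) := nonempty_equiv_of_countable
  have hq : ∀ k, (q k : ℕ) < τ (q k) := fun k => (q k).2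
  set f : ℕ × Bool → ℕ := fun w => if w.2 = true then (q w.1 : ℕ) else τ (q w.1) with hf
  have hf1 : ∀ k, f (k, true) = q k := fun k => by simp [hf]
  have hf2 : ∀ k, f (k, false) = τ (q k) := fun k => by simp [hf]
  have hinj : Function.Injective f := by
    rintro ⟨k, b⟩ ⟨k', b'⟩ hkk
    cases b <;> cases b'
    · rw [hf2, hf2] at hkk
      have := q.injective (Subtype.ext (τ.injective hkk))
      rw [this]
    · rw [hf2, hf1] at hkk
      have h1 := hq k
      have h2 := hq k'
      rw [← hkk, hττ] at h2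
      omega
    · rw [hf1, hf2] at hkk
      have h1 := hq k
      have h2 := hq k'
      rw [hkk, hττ] at h1
      omega
    · rw [hf1, hf1] at hkk
      have := q.injective (Subtype.ext hkk)
      rw [this]
  have hsurj : Function.Surjective f := by
    intro n
    rcases lt_or_gt_of_ne (hτ n) with h' | h'
    · have h1 : τ n ∈ S := by show τ n < τ (τ n); rw [hττ]; exact h'
      refine ⟨(q.symm ⟨τ n, h1⟩, false), ?_⟩
      rw [hf2, Equiv.apply_symm_apply]
      exact hττ n
    · refine ⟨(q.symm ⟨n, h'⟩, true), ?_⟩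
      rw [hf1, Equiv.apply_symm_apply]
  refine ⟨Equiv.ofBijective f ⟨hinj, hsurj⟩, fun k b => ?_⟩
  show τ (f (k, b)) = f (k, !b)
  cases b
  · rw [hf2, Bool.not_false, hf1, hττ]
  · rw [hf1, Bool.not_true, hf2]

end Involution

/-- The action of the signs on the two-point set. -/
def sact (u : ℤˣ) (b : Bool) : Bool := if u = 1 then b else !b

theorem sact_mul (u v : ℤˣ) (b : Bool) : sact (u * v) b = sact u (sact v b) := by
  revert u v b; decide

theorem sact_one (b : Bool) : sact 1 b = b := by simp [sact]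

theorem sact_neg_one (b : Bool) : sact (-1) b = !b := by
  revert b; decide

theorem sact_not (u : ℤˣ) (b : Bool) : sact u (!b) = !sact u b := by
  revert u b; decide

theorem sact_inv (u : ℤˣ) (b : Bool) : sact u⁻¹ (sact u b) = b := by
  rw [← sact_mul, inv_mul_cancel, sact_one]

/-- The permutations of the pairs. -/
def pPerm (E : ℕ × Bool ≃ ℕ) : Perm ℕ →* Perm ℕ where
  toFun π :=
    { toFun := fun n => E (π (E.symm n).1, (E.symm n).2)
      invFun := fun n => E (π.symm (E.symm n).1, (E.symm n).2)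
      left_inv := fun n => by simp
      right_inv := fun n => by simp }
  map_one' := by
    ext n; simp
  map_mul' π π' := by
    ext n; simp

/-- The sign changes. -/
def ePerm (E : ℕ × Bool ≃ ℕ) : (ℕ → ℤˣ) →* Perm ℕ where
  toFun s :=
    { toFun := fun n => E ((E.symm n).1, sact (s (E.symm n).1) (E.symm n).2)
      invFun := fun n => E ((E.symm n).1, sact (s (E.symm n).1)⁻¹ (E.symm n).2)
      left_inv := fun n => by
        simp only [Equiv.symm_apply_apply, sact_inv]
        simp
      right_inv := fun n => by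
        have := sact_inv (s (E.symm n).1)⁻¹ (E.symm n).2
        rw [inv_inv] at this
        simp only [Equiv.symm_apply_apply, this]
        simp }
  map_one' := by
    ext n; simp [sact_one]
  map_mul' s s' := by
    ext n
    simp only [Pi.mul_apply, sact_mul, Equiv.coe_fn_mk, Equiv.Perm.coe_mul, Function.comp_apply,
      Equiv.symm_apply_apply]

theorem pPerm_apply (E : ℕ × Bool ≃ ℕ) (π : Perm ℕ) (k : ℕ) (b : Bool) :
    pPerm E π (E (k, b)) = E (π k, b) := by
  show E (π (E.symm (E (k, b))).1, (E.symm (E (k, b))).2) = _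
  rw [Equiv.symm_apply_apply]

theorem ePerm_apply (E : ℕ × Bool ≃ ℕ) (s : ℕ → ℤˣ) (k : ℕ) (b : Bool) :
    ePerm E s (E (k, b)) = E (k, sact (s k) b) := by
  show E ((E.symm (E (k, b))).1, sact (s (E.symm (E (k, b))).1) (E.symm (E (k, b))).2) = _
  rw [Equiv.symm_apply_apply]

theorem perm_ext_coord (E : ℕ × Bool ≃ ℕ) (π π' : Perm ℕ)
    (hππ : ∀ k b, π (E (k, b)) = π' (E (k, b))) : π = π' := by
  ext n
  obtain ⟨⟨k, b⟩, rfl⟩ := E.surjective n
  exact hππ k b

section Coord

variable {τ : Perm ℕ} (E : ℕ × Bool ≃ ℕ) (hE : ∀ k b, τ (E (k, b)) = E (k, !b))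

include hE

theorem pPerm_mem (π : Perm ℕ) : pPerm E π ∈ Subgroup.centralizer {τ} := by
  rw [Subgroup.mem_centralizer_singleton_iff]
  refine perm_ext_coord E _ _ fun k b => ?_
  rw [Equiv.Perm.mul_apply, Equiv.Perm.mul_apply, hE, pPerm_apply, pPerm_apply, hE]

theorem ePerm_mem (s : ℕ → ℤˣ) : ePerm E s ∈ Subgroup.centralizer {τ} := by
  rw [Subgroup.mem_centralizer_singleton_iff]
  refine perm_ext_coord E _ _ fun k b => ?_
  rw [Equiv.Perm.mul_apply, Equiv.Perm.mul_apply, hE, ePerm_apply, ePerm_apply, hE, sact_not]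

theorem ePerm_neg_one : ePerm E (fun _ => -1) = τ := by
  refine perm_ext_coord E _ _ fun k b => ?_
  rw [ePerm_apply, hE, sact_neg_one]

omit hE in
theorem pPerm_ePerm (π : Perm ℕ) (s : ℕ → ℤˣ) :
    pPerm E π * ePerm E s * (pPerm E π)⁻¹ = ePerm E (fun k => s (π⁻¹ k)) := by
  rw [mul_inv_eq_iff_eq_mul]
  refine perm_ext_coord E _ _ fun k b => ?_
  rw [Equiv.Perm.mul_apply, Equiv.Perm.mul_apply, ePerm_apply, pPerm_apply, pPerm_apply,
    ePerm_apply]
  simp

/-- The only central involution of the centraliser. -/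
theorem central_eq (z : Perm ℕ) (hz : z ∈ Subgroup.centralizer {τ})
    (hcomm : ∀ g ∈ Subgroup.centralizer {τ}, g * z = z * g) (hz1 : z ≠ 1) : z = τ := by
  classical
  have hzz : ∀ k b, z (E (k, !b)) = τ (z (E (k, b))) := by
    intro k b
    rw [← hE, ← Equiv.Perm.mul_apply, Subgroup.mem_centralizer_singleton_iff.mp hz,
      Equiv.Perm.mul_apply]
  -- the first coordinate is fixed
  have h1 : ∀ k b, (E.symm (z (E (k, b)))).1 = k := by
    intro k b
    have h2 := hcomm _ (ePerm_mem E hE (fun m => if m = k then -1 else 1))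
    have h3 := congrArg (fun g : Perm ℕ => g (E (k, b))) h2
    simp only [Equiv.Perm.mul_apply] at h3
    by_contra hcon
    obtain ⟨⟨k', b'⟩, hk'⟩ := E.surjective (z (E (k, b)))
    rw [← hk', Equiv.symm_apply_apply] at hcon
    rw [← hk', ePerm_apply, ePerm_apply, if_neg hcon, if_pos rfl, sact_one, hk', sact_neg_one]
      at h3
    have h4 := E.injective (z.injective h3)
    simp at h4
  have h2 : ∀ k b, z (E (k, b)) = E (k, b) ∨ z (E (k, b)) = E (k, !b) := by
    intro k b
    obtain ⟨⟨k', b'⟩, hk'⟩ := E.surjective (z (E (k, b)))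
    have h3 := h1 k b
    rw [← hk', Equiv.symm_apply_apply] at h3
    simp only at h3
    subst h3
    rw [← hk']
    cases b <;> cases b' <;> simp
  -- some point is moved
  obtain ⟨k0, b0, h0⟩ : ∃ k b, z (E (k, b)) = E (k, !b) := by
    by_contra hcon
    push Not at hcon
    exact hz1 (perm_ext_coord E _ _ fun k b => (h2 k b).resolve_right (hcon k b))
  refine perm_ext_coord E _ _ fun k b => ?_
  have h3 := hcomm _ (pPerm_mem E hE (Equiv.swap k0 k))
  have h4 := congrArg (fun g : Perm ℕ => g (E (k0, b0))) h3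
  simp only [Equiv.Perm.mul_apply] at h4
  rw [h0, pPerm_apply, pPerm_apply, Equiv.swap_apply_left] at h4
  rw [hE]
  rcases Bool.eq_or_eq_not b b0 with rfl | rfl
  · exact h4.symm
  · rw [hzz, ← h4, hE]

end Coord

section Main

variable {𝓕 : Set (Finset ℕ)} {X : Type*} [NormedAddCommGroup X] [NormedSpace ℝ X]
    [CompleteSpace X] {e : ℕ → X} (h : IsRegular 𝓕) (hX : IsCombSpace 𝓕 e)
    (hU : ∀ r : ℕ, ∃ F ∈ 𝓕, r ≤ F.card) (hF : FarUnions 𝓕)
    {N : Seminorm ℝ X} (hN : ∃ c C : ℝ, 0 < c ∧ ∀ x, c * ‖x‖ ≤ N x ∧ N x ≤ C * ‖x‖)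
    {τ : Perm ℕ} (hτ : ∀ n, τ n ≠ n) (hττ : ∀ n, τ (τ n) = n)

include h hX hU hF hN hτ hττ

/-- No homomorphism sends the involution to `-Id`. -/
theorem no_centralizer_hom (Ψ : Subgroup.centralizer {τ} →* isomGroup N)
    (t : Subgroup.centralizer {τ}) (ht : (t : Perm ℕ) = τ)
    (hΨ : ∀ x, (Ψ t : X ≃ₗ[ℝ] X) x = -x) : False := by
  obtain ⟨c, C, hc, hN⟩ := hN
  obtain ⟨E, hE⟩ := exists_coord hτ hττ
  have hN' : ∀ x, c * ‖x‖ ≤ N x ∧ N x ≤ max c C * ‖x‖ := fun x =>
    ⟨(hN x).1, (hN x).2.trans (mul_le_mul_of_nonneg_right (le_max_right _ _) (norm_nonneg _))⟩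
  refine no_hom h hX hU hF hc (hc.trans_le (le_max_left c C)) hN' (le_max_left _ _)
    (Ψ.comp ((pPerm E).codRestrict _ (pPerm_mem E hE)))
    (Ψ.comp ((ePerm E).codRestrict _ (ePerm_mem E hE))) ?_ ?_
  · intro π s
    simp only [MonoidHom.comp_apply]
    rw [← map_inv, ← map_mul, ← map_mul]
    congr 1
    apply Subtype.ext
    exact pPerm_ePerm E π s
  · intro x
    rw [← hΨ x]
    have h1 : (ePerm E).codRestrict _ (ePerm_mem E hE) (fun _ => -1) = t :=
      Subtype.ext ((ePerm_neg_one E hE).trans ht.symm)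
    rw [MonoidHom.comp_apply, h1]

/-- Groups all of whose central involutions are images of the involution. -/
theorem not_displayable (G : Type*) [Group G]
    (hG : ∀ z : G, z ≠ 1 → z * z = 1 → (∀ g, g * z = z * g) →
      ∃ (f : Subgroup.centralizer {τ} →* G) (t : Subgroup.centralizer {τ}),
        (t : Perm ℕ) = τ ∧ f t = z) : IsEmpty (G ≃* isomGroup N) := by
  refine ⟨fun Φ => ?_⟩
  set m : isomGroup N := ⟨LinearEquiv.neg ℝ, fun x => by
    rw [LinearEquiv.neg_apply, map_neg_eq_map]⟩ with hm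
  have hmx : ∀ x, (m : X ≃ₗ[ℝ] X) x = -x := fun x => by
    rw [hm]; exact LinearEquiv.neg_apply x
  obtain ⟨f, t, ht, hft⟩ := hG (Φ.symm m) (by
      intro h1
      have h2 : m = 1 := by
        rw [← Φ.apply_symm_apply m, h1, map_one]
      have h3 := hmx (e 0)
      rw [h2, isom_one] at h3
      have h4 : (2 : ℝ) • e 0 = 0 := by
        rw [two_smul]
        nth_rewrite 1 [h3]
        simp
      have h5 : e 0 = 0 := (smul_eq_zero.mp h4).resolve_left (by norm_num)
      have h6 := ef_basis h hX 0 0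
      rw [h5, map_zero, if_pos rfl] at h6
      norm_num at h6) (by
      rw [← map_mul, ← map_one Φ.symm]
      congr 1
      apply Subtype.ext
      ext x
      rw [isom_mul, hmx, hmx, neg_neg]
      rfl) (fun g => by
      apply Φ.injective
      rw [map_mul, map_mul, Φ.apply_symm_apply]
      apply Subtype.ext
      ext x
      rw [isom_mul, isom_mul, hmx, hmx, map_neg])
  refine no_centralizer_hom h hX hU hF hN hτ hττ ((Φ : G →* isomGroup N).comp f) t ht fun x => ?_
  rw [MonoidHom.comp_apply, hft]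
  simp only [MonoidHom.coe_coe, MulEquiv.apply_symm_apply]
  exact hmx x

/-- The centraliser itself. -/
theorem centralizer_not_displayable : IsEmpty (Subgroup.centralizer {τ} ≃* isomGroup N) := by
  refine not_displayable h hX hU hF hN hτ hττ _ fun z hz1 _ hzc => ?_
  obtain ⟨E, hE⟩ := exists_coord hτ hττ
  refine ⟨MonoidHom.id _, z, ?_, rfl⟩
  refine central_eq E hE z z.2 (fun g hg => ?_) fun h1 => hz1 (Subtype.ext h1)
  have := hzc ⟨g, hg⟩
  exact congrArg Subtype.val this

end Main

end Pool.Agent.Comb7f333f
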