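import Pool.Agent.Lib.MP_7f333f_an.Neg.Swindle

set_option autoImplicit false

/-!
A homomorphism from the group of signed permutations: inside every infinite set there is an
infinite set such that all the signed permutations supported there have small images.
-/

namespace Pool.Agent.Comb7f333f

open Equiv

/-- The permutations of the base. -/
def baseHom : (ℕ → Perm (List Bool ⊕ ℕ)) →* Perm ((ℕ × (List Bool ⊕ ℕ)) × ℕ) where
  toFun b :=
    { toFun := fun w => ((w.1.1, b w.1.1 w.1.2), w.2)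
      invFun := fun w => ((w.1.1, (b w.1.1).symm w.1.2), w.2)
      left_inv := fun w => by simp
      right_inv := fun w => by simp }
  map_one' := rfl
  map_mul' _ _ := rfl

/-- The permutations of the fibres on one level. -/
def fibHom (n : ℕ) : ((List Bool ⊕ ℕ) → Perm ℕ) →* Perm ((ℕ × (List Bool ⊕ ℕ)) × ℕ) where
  toFun χ :=
    { toFun := fun w => (w.1, if w.1.1 = n then χ w.1.2 w.2 else w.2)
      invFun := fun w => (w.1, if w.1.1 = n then (χ w.1.2).symm w.2 else w.2)
      left_inv := fun w => by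
        by_cases hw : w.1.1 = n <;> simp [hw]
      right_inv := fun w => by
        by_cases hw : w.1.1 = n <;> simp [hw] }
  map_one' := by
    ext w <;> simp
  map_mul' χ χ' := by
    refine Equiv.ext fun w => ?_
    by_cases hw : w.1.1 = n <;> simp [hw]

/-- The signs on one level. -/
def sgnHom (n : ℕ) : ((List Bool ⊕ ℕ) → (ℕ → ℤˣ)) →* ((ℕ × (List Bool ⊕ ℕ)) × ℕ → ℤˣ) where
  toFun χ := fun w => if w.1.1 = n then χ w.1.2 w.2 else 1
  map_one' := by
    funext w; simp
  map_mul' χ χ' := by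
    funext w
    by_cases hw : w.1.1 = n <;> simp [hw]

theorem baseHom_apply (b : ℕ → Perm (List Bool ⊕ ℕ)) (w : (ℕ × (List Bool ⊕ ℕ)) × ℕ) :
    baseHom b w = ((w.1.1, b w.1.1 w.1.2), w.2) := rfl

theorem fibHom_apply (n : ℕ) (χ : (List Bool ⊕ ℕ) → Perm ℕ) (w : (ℕ × (List Bool ⊕ ℕ)) × ℕ) :
    fibHom n χ w = (w.1, if w.1.1 = n then χ w.1.2 w.2 else w.2) := rfl

theorem sgnHom_apply (n : ℕ) (χ : (List Bool ⊕ ℕ) → (ℕ → ℤˣ)) (w : (ℕ × (List Bool ⊕ ℕ)) × ℕ) :
    sgnHom n χ w = if w.1.1 = n then χ w.1.2 w.2 else 1 := rfl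

theorem base_fib (b : ℕ → Perm (List Bool ⊕ ℕ)) (n : ℕ) (χ : (List Bool ⊕ ℕ) → Perm ℕ) :
    baseHom b * fibHom n χ * (baseHom b)⁻¹ = fibHom n (fun l => χ ((b n)⁻¹ l)) := by
  rw [mul_inv_eq_iff_eq_mul]
  refine Equiv.ext fun w => ?_
  obtain ⟨⟨n', l⟩, k⟩ := w
  rw [Equiv.Perm.mul_apply, Equiv.Perm.mul_apply, baseHom_apply, fibHom_apply, fibHom_apply,
    baseHom_apply]
  by_cases hn : n' = n
  · subst hn
    simp
  · simp [hn]

theorem base_inv_apply (b : ℕ → Perm (List Bool ⊕ ℕ)) (w : (ℕ × (List Bool ⊕ ℕ)) × ℕ) :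
    (baseHom b)⁻¹ w = ((w.1.1, (b w.1.1)⁻¹ w.1.2), w.2) := rfl

theorem viaEmbedding_inv_apply {α β : Type*} (e : Perm α) (ι : α ↪ β) (x : α) :
    (e.viaEmbedding ι)⁻¹ (ι x) = ι (e⁻¹ x) := by
  rw [Equiv.Perm.inv_eq_iff_eq, Equiv.Perm.viaEmbedding_apply]
  simp

theorem viaEmbedding_inv_apply_of_notMem {α β : Type*} (e : Perm α) (ι : α ↪ β) (x : β)
    (hx : x ∉ Set.range ι) : (e.viaEmbedding ι)⁻¹ x = x := by
  rw [Equiv.Perm.inv_eq_iff_eq, Equiv.Perm.viaEmbedding_apply_of_notMem _ _ _ hx]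

/-- Zooming in. -/
theorem zoom {G : Type*} [Group G] {d : G → ℝ} (hd : IsLen d) (p : Perm ℕ →* G)
    (ε : (ℕ → ℤˣ) →* G) (hpe : ∀ π s, p π * ε s * (p π)⁻¹ = ε (fun k => s (π⁻¹ k)))
    (Z : Set ℕ) (hZ : Z.Infinite) (η : ℝ) (hη : 0 < η) :
    ∃ Z' : Set ℕ, Z' ⊆ Z ∧ Z'.Infinite ∧
      (∀ π : Perm ℕ, (∀ k, k ∉ Z' → π k = k) → d (p π) ≤ η) ∧
      ∀ s : ℕ → ℤˣ, (∀ k, k ∉ Z' → s k = 1) → d (ε s) ≤ η := by
  classical
  obtain ⟨w0, hw0⟩ := Countable.exists_injective_nat ((ℕ × (List Bool ⊕ ℕ)) × ℕ)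
  set ι : ((ℕ × (List Bool ⊕ ℕ)) × ℕ) ↪ ℕ :=
    ⟨fun w => (Set.Infinite.natEmbedding Z hZ (w0 w) : ℕ), fun w w' hww =>
      hw0 ((Set.Infinite.natEmbedding Z hZ).injective (Subtype.ext hww))⟩ with hι
  have hιZ : ∀ w, ι w ∈ Z := fun w => (Set.Infinite.natEmbedding Z hZ (w0 w)).2
  clear_value ι
  have hη' : 0 < η / 12 := by positivity
  obtain ⟨n, hn⟩ := hd.full ((p.comp (Equiv.Perm.viaEmbeddingHom ι)).comp baseHom) (η / 12) hη'
  -- the permutations
  have h1 := hd.swindle ((p.comp (Equiv.Perm.viaEmbeddingHom ι)).comp (fibHom n)) (η / 12) hη' (by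
    intro b
    obtain ⟨b', hb', hb'2⟩ := hn b
    refine ⟨_, hb'2, fun χ => ?_⟩
    simp only [MonoidHom.comp_apply]
    rw [← map_inv, ← map_inv, ← map_mul, ← map_mul, ← map_mul, ← map_mul, base_fib, hb'])
  -- the signs
  have h2 := hd.swindle ((ε.comp (Function.ExtendByOne.hom ℤˣ ι)).comp (sgnHom n)) (η / 12) hη' (by
    intro b
    obtain ⟨b', hb', hb'2⟩ := hn b
    refine ⟨_, hb'2, fun χ => ?_⟩
    simp only [MonoidHom.comp_apply]
    rw [hpe]
    congr 1
    funext k
    by_cases hk : k ∈ Set.range ι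
    · obtain ⟨w, rfl⟩ := hk
      rw [Equiv.Perm.viaEmbeddingHom_apply, viaEmbedding_inv_apply]
      show Function.extend ι _ 1 (ι _) = Function.extend ι _ 1 (ι w)
      rw [ι.injective.extend_apply, ι.injective.extend_apply, base_inv_apply]
      obtain ⟨⟨n', l⟩, m⟩ := w
      by_cases hn' : n' = n
      · subst hn'
        simp [sgnHom, hb']
      · simp [sgnHom, hn']
    · rw [Equiv.Perm.viaEmbeddingHom_apply, viaEmbedding_inv_apply_of_notMem _ _ _ hk]
      show Function.extend ι _ 1 k = Function.extend ι _ 1 k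
      rw [Function.extend_apply' _ _ _ hk, Function.extend_apply' _ _ _ hk])
  set l0 : List Bool ⊕ ℕ := Sum.inr 0 with hl0
  set κ : ℕ → ℕ := fun k => ι ((n, l0), k) with hκ
  have hκinj : Function.Injective κ := fun k k' hkk => by
    have := ι.injective hkk
    simpa using this
  have hκr : ∀ w, ι w ∈ Set.range κ → w.1 = (n, l0) := by
    rintro w ⟨k, hk⟩
    rw [← ι.injective hk]
  refine ⟨Set.range κ, ?_, Set.infinite_range_of_injective hκinj, ?_, ?_⟩
  · rintro _ ⟨k, rfl⟩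
    exact hιZ _
  · intro π hπ
    have hmem : ∀ π : Perm ℕ, (∀ k, k ∉ Set.range κ → π k = k) → ∀ k, π (κ k) ∈ Set.range κ := by
      intro π hπ k
      by_contra hcon
      have h3 := π.injective (hπ _ hcon)
      rw [h3] at hcon
      exact hcon ⟨k, rfl⟩
    have hπ' : ∀ k, k ∉ Set.range κ → π⁻¹ k = k := by
      intro k hk
      rw [Equiv.Perm.inv_eq_iff_eq]
      exact (hπ k hk).symm
    choose f hf using hmem π hπ
    choose f' hf' using hmem π⁻¹ hπ'
    set F : Perm ℕ := ⟨f, f', fun k => hκinj (by rw [hf', hf]; simp),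
      fun k => hκinj (by rw [hf, hf']; simp)⟩ with hF
    have h3 := h1 l0 F
    have h4 : Equiv.Perm.viaEmbeddingHom ι (fibHom n (Pi.mulSingle l0 F)) = π := by
      refine Equiv.ext fun x => ?_
      rw [Equiv.Perm.viaEmbeddingHom_apply]
      by_cases hx : x ∈ Set.range ι
      · obtain ⟨w, rfl⟩ := hx
        rw [Equiv.Perm.viaEmbedding_apply]
        obtain ⟨⟨n', l⟩, k⟩ := w
        by_cases hw : ((n', l) : ℕ × (List Bool ⊕ ℕ)) = (n, l0)
        · have h5 : fibHom n (Pi.mulSingle l0 F) ((n, l0), k) = ((n, l0), f k) := by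
            rw [fibHom_apply]
            simp [hF]
          rw [hw, h5]
          exact hf k
        · have h5 : fibHom n (Pi.mulSingle l0 F) ((n', l), k) = ((n', l), k) := by
            by_cases hn' : n' = n
            · have hl : l ≠ l0 := fun h' => hw (by rw [hn', h'])
              rw [fibHom_apply]
              simp [hl]
            · rw [fibHom_apply]
              simp [hn']
          rw [h5]
          exact (hπ _ fun h' => hw (hκr _ h')).symm
      · rw [Equiv.Perm.viaEmbedding_apply_of_notMem _ _ _ hx]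
        refine (hπ x fun h' => hx ?_).symm
        obtain ⟨k, rfl⟩ := h'
        exact ⟨_, rfl⟩
    simp only [MonoidHom.comp_apply] at h3
    rw [h4] at h3
    linarith
  · intro s hs
    have h3 := h2 l0 (fun k => s (κ k))
    have h4 : Function.ExtendByOne.hom ℤˣ ι (sgnHom n (Pi.mulSingle l0 fun k => s (κ k))) = s := by
      funext x
      show Function.extend ι _ 1 x = s x
      by_cases hx : x ∈ Set.range ι
      · obtain ⟨w, rfl⟩ := hx
        rw [ι.injective.extend_apply]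
        obtain ⟨⟨n', l⟩, k⟩ := w
        by_cases hw : ((n', l) : ℕ × (List Bool ⊕ ℕ)) = (n, l0)
        · rw [hw, sgnHom_apply]
          simp [hκ]
        · have h5 : s (ι ((n', l), k)) = 1 := hs _ fun h' => hw (hκr _ h')
          rw [h5]
          by_cases hn' : n' = n
          · have hl : l ≠ l0 := fun h' => hw (by rw [hn', h'])
            rw [sgnHom_apply]
            simp [hl]
          · rw [sgnHom_apply]
            simp [hn']
      · rw [Function.extend_apply' _ _ _ hx]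
        refine (hs x fun h' => hx ?_).symm
        obtain ⟨k, rfl⟩ := h'
        exact ⟨_, rfl⟩
    simp only [MonoidHom.comp_apply] at h3
    rw [h4] at h3
    linarith

end Pool.Agent.Comb7f333f
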